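import Pool.Agent.Helper98.QR.StmtsA
import Pool.Agent.Helper98.QR.StmtsT

/-!
# QR block A, row A13: the expected number of bad positions is small
-/

namespace QR65

noncomputable section

open QR Filter Topology

theorem finite_RMap (D : Type) [Finite D] : Finite (RMap D) :=
  Finite.of_injective (fun m : RMap D => (m.rot, m.opp)) (by
    intro a b h
    simp only [Prod.mk.injEq] at h
    exact RMap.ext h.1 h.2)

theorem cnt_le_sum {α ι : Type} [Finite α] (s : Finset ι) (p : α → Prop) (q : ι → α → Prop)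
    (h : ∀ x, p x → ∃ i ∈ s, q i x) :
    Nat.card {x // p x} ≤ ∑ i ∈ s, Nat.card {x // q i x} := by
  classical
  haveI := Fintype.ofFinite α
  simp only [Nat.card_eq_fintype_card, Fintype.card_subtype]
  calc (Finset.univ.filter p).card
      ≤ (s.biUnion (fun i => Finset.univ.filter (q i))).card := by
        apply Finset.card_le_card
        intro x hx
        simp only [Finset.mem_filter, Finset.mem_univ, true_and] at hx
        obtain ⟨i, hi, hq⟩ := h x hx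
        simp only [Finset.mem_biUnion, Finset.mem_filter, Finset.mem_univ, true_and]
        exact ⟨i, hi, hq⟩
    _ ≤ _ := Finset.card_biUnion_le

variable {D : Type}

theorem isQuad_same {m : RMap D} {o o' : D} {N P : ℕ} (h : m.face.SameCycle o o')
    (hq : m.IsQuad o N P) : m.IsQuad o' N P where
  planar := hq.planar
  outer := by
    rw [← hq.outer]
    exact Nat.card_congr (Equiv.subtypeEquivRight (fun d => ⟨fun h' => h.trans h', fun h' => h.symm.trans h'⟩))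
  inner := fun d hd => hq.inner d (fun h' => hd (h.symm.trans h'))
  card := hq.card

theorem same_zpow (m : RMap D) (o : D) (a : ℤ) : m.face.SameCycle o ((m.face ^ a) o) :=
  ⟨a, rfl⟩

/-- rotation of the root along the outer face -/
def rotE (a : ℤ) : (RMap D × D) ≃ (RMap D × D) where
  toFun x := (x.1, (x.1.face ^ a) x.2)
  invFun x := (x.1, (x.1.face ^ (-a)) x.2)
  left_inv x := by
    simp only [← Equiv.Perm.mul_apply, ← zpow_add, neg_add_cancel, zpow_zero, Equiv.Perm.one_apply]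
  right_inv x := by
    simp only [← Equiv.Perm.mul_apply, ← zpow_add, add_neg_cancel, zpow_zero, Equiv.Perm.one_apply]

theorem cnt_rot (N P : ℕ) (a : ℤ) (R : RMap D × D → Prop) :
    Nat.card {x : RMap D × D // x.1.IsQuad x.2 N P ∧ R (rotE a x)} =
      Nat.card {x : RMap D × D // x.1.IsQuad x.2 N P ∧ R x} := by
  apply Nat.card_congr
  refine (rotE a).subtypeEquiv (fun x => ?_)
  constructor
  · rintro ⟨h1, h2⟩
    exact ⟨isQuad_same (same_zpow _ _ a) h1, h2⟩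
  · rintro ⟨h1, h2⟩
    exact ⟨isQuad_same (same_zpow x.1 x.2 a).symm h1, h2⟩

theorem exists_L : ∃ L : ℕ, 1 ≤ L ∧ ∀ P : ℕ,
    ∑ κ ∈ Finset.Ico L P, 1 / (κ : ℝ) ^ (3 / 2 : ℝ) ≤ 1 / 512 := by
  have hs : Summable (fun n : ℕ => 1 / (n : ℝ) ^ (3 / 2 : ℝ)) :=
    Real.summable_one_div_nat_rpow.2 (by norm_num)
  have ht := tendsto_sum_nat_add (fun n : ℕ => 1 / (n : ℝ) ^ (3 / 2 : ℝ))
  have he := ht.eventually (gt_mem_nhds (show (0 : ℝ) < 1 / 512 by norm_num))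
  obtain ⟨L, hL⟩ := (he.and (eventually_ge_atTop 1)).exists
  refine ⟨L, hL.2, fun P => ?_⟩
  rw [Finset.sum_Ico_eq_sum_range]
  have hs' : Summable (fun n : ℕ => 1 / ((n + L : ℕ) : ℝ) ^ (3 / 2 : ℝ)) :=
    (summable_nat_add_iff L).2 hs
  calc ∑ k ∈ Finset.range (P - L), 1 / ((L + k : ℕ) : ℝ) ^ (3 / 2 : ℝ)
      = ∑ k ∈ Finset.range (P - L), 1 / ((k + L : ℕ) : ℝ) ^ (3 / 2 : ℝ) := by
        refine Finset.sum_congr rfl (fun k _ => ?_)
        rw [add_comm]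
    _ ≤ ∑' k : ℕ, 1 / ((k + L : ℕ) : ℝ) ^ (3 / 2 : ℝ) :=
        hs'.sum_le_tsum _ (fun k _ => by positivity)
    _ ≤ 1 / 512 := hL.1.le

theorem bad_le (N P L : ℕ) (i : ℕ) :
    Nat.card {x // x ∈ GQ N P ∧ BadPos x.1 x.2 N P L i} ≤
      ∑ κ ∈ Finset.Ico L P, (2 * κ) * ∑ N1 ∈ (Finset.range (N + 1)).filter (fun a => N ≤ 2 * P * (N - a)),
        Nat.card {x // x ∈ GQ N P ∧ Pinch x.1 x.2 κ N1} := by
  haveI := finite_RMap (Fin (4 * N + 2 * P))
  have s1 := cnt_le_sum (Finset.Ico L P) (fun x => x ∈ GQ N P ∧ BadPos x.1 x.2 N P L i)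
    (fun κ x => x ∈ GQ N P ∧ ∃ a ∈ Finset.Ioc ((i : ℤ) - 2 * κ) i,
      ∃ N1 ∈ (Finset.range (N + 1)).filter (fun a => N ≤ 2 * P * (N - a)),
        Pinch x.1 ((x.1.face ^ a) x.2) κ N1)
    (fun x hx => by
      obtain ⟨hG, a, κ, N1, h1, h2, h3, h4, h5, h6, h7, h8⟩ := hx
      refine ⟨κ, Finset.mem_Ico.2 ⟨h1, h3⟩, hG, a, Finset.mem_Ioc.2 ⟨by omega, h4⟩, N1, ?_, h8⟩
      rw [Finset.mem_filter, Finset.mem_range]
      exact ⟨by omega, h7⟩)
  refine s1.trans (Finset.sum_le_sum (fun κ _ => ?_))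
  have s2 := cnt_le_sum (Finset.Ioc ((i : ℤ) - 2 * κ) i) (fun x => x ∈ GQ N P ∧
      ∃ a ∈ Finset.Ioc ((i : ℤ) - 2 * κ) i,
      ∃ N1 ∈ (Finset.range (N + 1)).filter (fun a => N ≤ 2 * P * (N - a)),
        Pinch x.1 ((x.1.face ^ a) x.2) κ N1)
    (fun a x => x ∈ GQ N P ∧
      ∃ N1 ∈ (Finset.range (N + 1)).filter (fun a => N ≤ 2 * P * (N - a)),
        Pinch x.1 ((x.1.face ^ a) x.2) κ N1)
    (fun x hx => by
      obtain ⟨hG, a, ha, hx⟩ := hx
      exact ⟨a, ha, hG, hx⟩)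
  refine s2.trans ?_
  have s3 : ∀ a ∈ Finset.Ioc ((i : ℤ) - 2 * κ) i, Nat.card {x // x ∈ GQ N P ∧
      ∃ N1 ∈ (Finset.range (N + 1)).filter (fun a => N ≤ 2 * P * (N - a)),
        Pinch x.1 ((x.1.face ^ a) x.2) κ N1} ≤
      ∑ N1 ∈ (Finset.range (N + 1)).filter (fun a => N ≤ 2 * P * (N - a)),
        Nat.card {x // x ∈ GQ N P ∧ Pinch x.1 x.2 κ N1} := by
    intro a _
    have s4 := cnt_le_sum ((Finset.range (N + 1)).filter (fun a => N ≤ 2 * P * (N - a)))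
      (fun x => x ∈ GQ N P ∧
        ∃ N1 ∈ (Finset.range (N + 1)).filter (fun a => N ≤ 2 * P * (N - a)),
          Pinch x.1 ((x.1.face ^ a) x.2) κ N1)
      (fun N1 x => x ∈ GQ N P ∧ Pinch x.1 ((x.1.face ^ a) x.2) κ N1)
      (fun x hx => by
        obtain ⟨hG, N1, hN, hx⟩ := hx
        exact ⟨N1, hN, hG, hx⟩)
    refine s4.trans (Finset.sum_le_sum (fun N1 _ => ?_))
    exact (cnt_rot N P a (fun x : RMap (Fin (4 * N + 2 * P)) × Fin (4 * N + 2 * P) =>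
      Pinch x.1 x.2 κ N1)).le
  refine (Finset.sum_le_sum s3).trans ?_
  rw [Finset.sum_const, smul_eq_mul, Int.card_Ioc]
  have : ((i : ℤ) - ((i : ℤ) - 2 * κ)).toNat = 2 * κ := by omega
  rw [this]

theorem st_A13 (h11 : ST_A11) (hT : ST_T13) : ST_A13 := by
  intro hcnt
  obtain ⟨L, hL1, hL⟩ := exists_L
  refine ⟨L, 1, hL1, le_rfl, fun P hP => ?_⟩
  have hev : ∀ᶠ N : ℕ in atTop, ∀ κ ∈ Finset.Ico L P,
      ∑ a ∈ (Finset.range (N + 1)).filter (fun a => N ≤ 2 * P * (N - a)),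
        uu a κ * uu (N - a) (P - κ) ≤ 64 / (κ : ℝ) ^ (5 / 2 : ℝ) * uu N P := by
    rw [Filter.eventually_all_finset]
    intro κ hκ
    rw [Finset.mem_Ico] at hκ
    exact hT P κ (hL1.trans hκ.1) hκ.2
  filter_upwards [hev] with N hN
  set F : ℝ := ((4 * N + 2 * P).factorial : ℝ) with hF
  have hFpos : 0 < F := by
    rw [hF]
    exact_mod_cast Nat.factorial_pos _
  set G : ℝ := (Nat.card {x // x ∈ GQ N P} : ℝ) with hG
  have hGnn : 0 ≤ G := Nat.cast_nonneg _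
  have hGF : G = F * uu N P := hcnt N P hP
  -- the inner sum
  have inner : ∀ κ ∈ Finset.Ico L P,
      ((∑ N1 ∈ (Finset.range (N + 1)).filter (fun a => N ≤ 2 * P * (N - a)),
        Nat.card {x // x ∈ GQ N P ∧ Pinch x.1 x.2 κ N1} : ℕ) : ℝ) ≤ 64 / (κ : ℝ) ^ (5 / 2 : ℝ) * G := by
    intro κ hκ
    have hκ' := Finset.mem_Ico.1 hκ
    rw [Nat.cast_sum]
    have h1 : ∀ N1 ∈ (Finset.range (N + 1)).filter (fun a => N ≤ 2 * P * (N - a)),
        (Nat.card {x // x ∈ GQ N P ∧ Pinch x.1 x.2 κ N1} : ℝ) ≤ F * (uu N1 κ * uu (N - N1) (P - κ)) := by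
      intro N1 hN1
      rw [Finset.mem_filter, Finset.mem_range] at hN1
      have a := h11 N P κ N1 (hL1.trans hκ'.1) hκ'.2 (by omega)
      rw [hcnt N1 κ (hL1.trans hκ'.1), hcnt (N - N1) (P - κ) (by omega)] at a
      have f1 : ((4 * N1 + 2 * κ).factorial : ℝ) ≠ 0 := by exact_mod_cast (Nat.factorial_pos _).ne'
      have f2 : ((4 * (N - N1) + 2 * (P - κ)).factorial : ℝ) ≠ 0 := by
        exact_mod_cast (Nat.factorial_pos _).ne'
      rw [mul_div_cancel_left₀ _ f1, mul_div_cancel_left₀ _ f2, div_le_iff₀ (by rw [← hF]; exact hFpos)] at a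
      rw [← hF] at a
      linarith
    calc ∑ N1 ∈ (Finset.range (N + 1)).filter (fun a => N ≤ 2 * P * (N - a)),
          (Nat.card {x // x ∈ GQ N P ∧ Pinch x.1 x.2 κ N1} : ℝ)
        ≤ ∑ N1 ∈ (Finset.range (N + 1)).filter (fun a => N ≤ 2 * P * (N - a)),
          F * (uu N1 κ * uu (N - N1) (P - κ)) := Finset.sum_le_sum h1
      _ = F * ∑ N1 ∈ (Finset.range (N + 1)).filter (fun a => N ≤ 2 * P * (N - a)),
          (uu N1 κ * uu (N - N1) (P - κ)) := by rw [Finset.mul_sum]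
      _ ≤ F * (64 / (κ : ℝ) ^ (5 / 2 : ℝ) * uu N P) := mul_le_mul_of_nonneg_left (hN κ hκ) hFpos.le
      _ = 64 / (κ : ℝ) ^ (5 / 2 : ℝ) * G := by rw [hGF]; ring
  have one : ∀ i : ℕ, (Nat.card {x // x ∈ GQ N P ∧ BadPos x.1 x.2 N P L i} : ℝ) ≤ 1 / 4 * G := by
    intro i
    have b : (Nat.card {x // x ∈ GQ N P ∧ BadPos x.1 x.2 N P L i} : ℝ) ≤
        ((∑ κ ∈ Finset.Ico L P, (2 * κ) *
          ∑ N1 ∈ (Finset.range (N + 1)).filter (fun a => N ≤ 2 * P * (N - a)),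
            Nat.card {x // x ∈ GQ N P ∧ Pinch x.1 x.2 κ N1} : ℕ) : ℝ) := by
      exact_mod_cast bad_le N P L i
    refine b.trans ?_
    rw [Nat.cast_sum]
    have c : ∀ κ ∈ Finset.Ico L P, (((2 * κ) *
          ∑ N1 ∈ (Finset.range (N + 1)).filter (fun a => N ≤ 2 * P * (N - a)),
            Nat.card {x // x ∈ GQ N P ∧ Pinch x.1 x.2 κ N1} : ℕ) : ℝ) ≤
          128 * G * (1 / (κ : ℝ) ^ (3 / 2 : ℝ)) := by
      intro κ hκ
      have hκ' := Finset.mem_Ico.1 hκ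
      have hκ0 : (0 : ℝ) < κ := by exact_mod_cast (by omega : 0 < κ)
      rw [Nat.cast_mul]
      have h1 := inner κ hκ
      have h2 : ((2 * κ : ℕ) : ℝ) = 2 * κ := by push_cast; ring
      rw [h2]
      have e : (κ : ℝ) ^ (5 / 2 : ℝ) = κ * (κ : ℝ) ^ (3 / 2 : ℝ) := by
        rw [show (5 / 2 : ℝ) = 1 + 3 / 2 by norm_num, Real.rpow_add hκ0, Real.rpow_one]
      have hp : 0 < (κ : ℝ) ^ (3 / 2 : ℝ) := Real.rpow_pos_of_pos hκ0 _
      calc 2 * (κ : ℝ) * _ ≤ 2 * (κ : ℝ) * (64 / (κ : ℝ) ^ (5 / 2 : ℝ) * G) :=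
            mul_le_mul_of_nonneg_left h1 (by positivity)
        _ = 128 * G * (1 / (κ : ℝ) ^ (3 / 2 : ℝ)) := by
            rw [e]
            field_simp
            ring
    refine (Finset.sum_le_sum c).trans ?_
    rw [← Finset.mul_sum]
    have := mul_le_mul_of_nonneg_left (hL P) (by positivity : 0 ≤ 128 * G)
    linarith
  calc ∑ i ∈ Finset.range (2 * P), (Nat.card {x // x ∈ GQ N P ∧ BadPos x.1 x.2 N P L i} : ℝ)
      ≤ ∑ _i ∈ Finset.range (2 * P), 1 / 4 * G := Finset.sum_le_sum (fun i _ => one i)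
    _ = P / 2 * G := by
        rw [Finset.sum_const, Finset.card_range, nsmul_eq_mul]
        push_cast
        ring

end

end QR65

theorem QR.st_A13 (h11 : QR.ST_A11) (hT : QR.ST_T13) : QR.ST_A13 := QR65.st_A13 h11 hT
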