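import Pool.Agent.Helper65.QR.Transp

/-!
# QR block A, row A14: with positive probability the core of the root is large
-/

namespace QR65

noncomputable section

open QR Filter Topology

theorem outer_zpow {D : Type} (m : RMap D) (o : D) (a : ℤ) :
    outer m ((m.face ^ a) o) = outer m o := by
  ext d
  exact ⟨fun h => (same_zpow m o a).trans h, fun h => (same_zpow m o a).symm.trans h⟩

/-- the core of the root is large -/
def QQ (N P : ℕ) (c : ℝ) (x : RMap (Fin (4 * N + 2 * P)) × Fin (4 * N + 2 * P)) : Prop :=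
  ∃ (n p : ℕ), 1 ≤ p ∧ p ≤ P ∧ n ≤ N ∧ N ≤ 2 * P * n ∧ c * P ≤ p ∧
    ∃ y ∈ SQ n p, ∃ j : Fin (4 * n + 2 * p) → Fin (4 * N + 2 * P), IsCore y.1 y.2 x.1 x.2 j

theorem det (h00 : ST_A00) (h06 : ST_A06) (h12 : ST_A12) {N P L : ℕ} (hP : 1 ≤ P) (hL : 1 ≤ L)
    {c : ℝ} (hc : c * (2 * (1 + 2 * L)) ≤ 1) (hc0 : 0 < c)
    (x : RMap (Fin (4 * N + 2 * P)) × Fin (4 * N + 2 * P)) (hx : x ∈ GQ N P)
    (hb : Nat.card {i : Fin (2 * P) // BadPos x.1 x.2 N P L (i : ℕ)} ≤ P) :
    P ≤ (1 + 2 * L) * Nat.card {i : Fin (2 * P) // QQ N P c (rotE ((i : ℕ) : ℤ) x)} := by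
  obtain ⟨ρ, hρ, -⟩ := h00 _ x.1.rot (outer x.1 x.2)
  obtain ⟨n, p, h1, h2, h3⟩ := h12 _ x.1 x.2 N P L ρ hP hL hx hρ hb
  refine h3.trans (Nat.mul_le_mul_left _ ?_)
  refine Nat.card_le_card_of_injective (fun i => ⟨i.1, ?_⟩) ?_
  · obtain ⟨i, D', hfin, m', j, o', hj, hr, hopp, hconn, hjo, hq⟩ := i
    have hjo' : j o' = (x.1.face ^ ((i : ℕ) : ℤ)) x.2 := by
      rw [hjo, zpow_natCast]
    have hmem : j o' ∈ outer x.1 x.2 := by
      rw [hjo']
      exact same_zpow x.1 x.2 _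
    obtain ⟨⟨n', p', q1, q2, q3, q4⟩, hs, -, -⟩ :=
      (h06 _ x.1 x.2 N P ρ hP hx hρ).2 D' m' j o' hj hr hopp hconn hmem
    have ep : p' = p := by
      have a := q4.outer
      have b := hq.outer
      omega
    have en : n' = n := by
      have a := q4.card
      have b := hq.card
      omega
    subst ep en
    have e : D' ≃ Fin (4 * n' + 2 * p') := Finite.equivFinOfCardEq hq.card
    refine ⟨n', p', q1, q2, q3, h1, ?_, (mv e m', e o'), ⟨mv_isQuad e hq, mv_simple e hs⟩,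
      j ∘ e.symm, ρ, ?_, hj.comp e.symm.injective, ?_, ?_, ?_, mv_conn e hconn⟩
    · have h2' : (P : ℝ) ≤ 2 * (1 + 2 * L) * p' := by exact_mod_cast h2
      calc c * P ≤ c * (2 * (1 + 2 * L) * p') := mul_le_mul_of_nonneg_left h2' hc0.le
        _ = c * (2 * (1 + 2 * L)) * p' := by ring
        _ ≤ 1 * p' := mul_le_mul_of_nonneg_right hc (Nat.cast_nonneg _)
        _ = p' := one_mul _
    · show IsRet x.1.rot (outer x.1 ((x.1.face ^ ((i : ℕ) : ℤ)) x.2)) ρ
      rw [outer_zpow]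
      exact hρ
    · intro d
      show j (e.symm (e.permCongr m'.rot d)) = (cut x.1 ρ).rot (j (e.symm d))
      rw [Equiv.permCongr_apply, Equiv.symm_apply_apply]
      exact hr _
    · intro d
      show j (e.symm (e.permCongr m'.opp d)) = x.1.opp (j (e.symm d))
      rw [Equiv.permCongr_apply, Equiv.symm_apply_apply]
      exact hopp _
    · show j (e.symm (e o')) = (x.1.face ^ ((i : ℕ) : ℤ)) x.2
      rw [Equiv.symm_apply_apply]
      exact hjo'
  · intro a b hab
    simp only [Subtype.mk.injEq] at hab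
    exact Subtype.ext hab

/-- double counting -/
theorem dbl {α : Type} [Finite α] (k : ℕ) (p : α → Prop) (r : ℕ → α → Prop) [Fintype α]
    [DecidablePred p] :
    ∑ x ∈ Finset.univ.filter p, Nat.card {i : Fin k // r i x} =
      ∑ i ∈ Finset.range k, Nat.card {x // p x ∧ r i x} := by
  classical
  rw [Finset.sum_range]
  have h := Finset.sum_card_bipartiteAbove_eq_sum_card_bipartiteBelow
    (s := (Finset.univ.filter p : Finset α)) (t := (Finset.univ : Finset (Fin k)))
    (fun x (i : Fin k) => r (i : ℕ) x)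
  calc ∑ x ∈ Finset.univ.filter p, Nat.card {i : Fin k // r i x}
      = ∑ x ∈ Finset.univ.filter p, ((Finset.univ : Finset (Fin k)).bipartiteAbove
          (fun x (i : Fin k) => r (i : ℕ) x) x).card := by
        refine Finset.sum_congr rfl (fun x _ => ?_)
        rw [Nat.card_eq_fintype_card, Fintype.card_subtype]
        rfl
    _ = _ := h
    _ = _ := by
        refine Finset.sum_congr rfl (fun i _ => ?_)
        rw [Nat.card_eq_fintype_card, Fintype.card_subtype]
        unfold Finset.bipartiteBelow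
        rw [Finset.filter_filter]

theorem st_A14 (h00 : ST_A00) (h06 : ST_A06) (h12 : ST_A12) (h13 : ST_A13) : ST_A14 := by
  classical
  intro hcnt
  obtain ⟨L, P0, hL, hP0, h⟩ := h13 hcnt
  have hLR : (0 : ℝ) < 1 + 2 * L := by positivity
  refine ⟨1 / (4 * (1 + 2 * L)), P0, by positivity, hP0, fun P hP => ?_⟩
  have hP1 : 1 ≤ P := hP0.trans hP
  have hPR : (0 : ℝ) < P := by exact_mod_cast (by omega : 0 < P)
  filter_upwards [h P hP] with N hN
  set c : ℝ := 1 / (4 * (1 + 2 * L)) with hc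
  have hc0 : 0 < c := by positivity
  have hc1 : c * (2 * (1 + 2 * L)) ≤ 1 := by
    rw [hc]
    have : 1 / (4 * (1 + 2 * (L : ℝ))) * (2 * (1 + 2 * L)) = 1 / 2 := by
      field_simp
      norm_num
    rw [this]
    norm_num
  have finR := finite_RMap (Fin (4 * N + 2 * P))
  have ft : Fintype (RMap (Fin (4 * N + 2 * P)) × Fin (4 * N + 2 * P)) := Fintype.ofFinite _
  set α := RMap (Fin (4 * N + 2 * P)) × Fin (4 * N + 2 * P) with hα
  set V : Finset α := Finset.univ.filter (fun x => x ∈ GQ N P) with hV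
  have hVc : (Nat.card {x // x ∈ GQ N P} : ℝ) = V.card := by
    rw [hV, Nat.card_eq_fintype_card, Fintype.card_subtype]
  -- number of bad positions
  set b : α → ℕ := fun x => Nat.card {i : Fin (2 * P) // BadPos x.1 x.2 N P L (i : ℕ)} with hb
  have hsum : ((∑ x ∈ V, b x : ℕ) : ℝ) ≤ P / 2 * V.card := by
    have e := dbl (α := α) (2 * P) (fun x => x ∈ GQ N P) (fun i x => BadPos x.1 x.2 N P L (i : ℕ))
    rw [hb, hV, e, ← hV, ← hVc]
    push_cast
    exact hN
  set W : Finset α := V.filter (fun x => b x ≤ P) with hW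
  have hWc : (V.card : ℝ) / 2 ≤ W.card := by
    have h1 : P * (V.filter (fun x => ¬ b x ≤ P)).card ≤ ∑ x ∈ V, b x := by
      calc P * (V.filter (fun x => ¬ b x ≤ P)).card
          = ∑ _x ∈ V.filter (fun x => ¬ b x ≤ P), P := by
            rw [Finset.sum_const, smul_eq_mul, mul_comm]
        _ ≤ ∑ x ∈ V.filter (fun x => ¬ b x ≤ P), b x := by
            refine Finset.sum_le_sum (fun x hx => ?_)
            have := (Finset.mem_filter.1 hx).2
            omega
        _ ≤ ∑ x ∈ V, b x := Finset.sum_le_sum_of_subset (Finset.filter_subset _ _)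
    have h2 : (P : ℝ) * ((V.filter (fun x => ¬ b x ≤ P)).card : ℝ) ≤ P / 2 * V.card := by
      refine le_trans ?_ hsum
      exact_mod_cast h1
    have h3 : ((V.filter (fun x => ¬ b x ≤ P)).card : ℝ) ≤ V.card / 2 := by
      have : (P : ℝ) * ((V.filter (fun x => ¬ b x ≤ P)).card : ℝ) ≤ P * (V.card / 2) := by linarith
      exact le_of_mul_le_mul_left this hPR
    have h4 := Finset.card_filter_add_card_filter_not (s := V) (fun x => b x ≤ P)
    have h5 : (W.card : ℝ) + ((V.filter (fun x => ¬ b x ≤ P)).card : ℝ) = V.card := by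
      rw [hW]
      exact_mod_cast h4
    linarith
  -- good positions
  set g : α → ℕ := fun x => Nat.card {i : Fin (2 * P) // QQ N P c (rotE ((i : ℕ) : ℤ) x)} with hg
  have hg1 : ∀ x ∈ W, P ≤ (1 + 2 * L) * g x := by
    intro x hx
    rw [hW, Finset.mem_filter, hV, Finset.mem_filter] at hx
    exact det h00 h06 h12 hP1 hL hc1 hc0 x hx.1.2 hx.2
  have hgsum : ∑ x ∈ V, g x = 2 * P * Nat.card {x // x ∈ GQ N P ∧ QQ N P c x} := by
    have e := dbl (α := α) (2 * P) (fun x => x ∈ GQ N P) (fun i x => QQ N P c (rotE (i : ℤ) x))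
    rw [hg, hV, e]
    have : ∀ i ∈ Finset.range (2 * P), Nat.card {x : α // x ∈ GQ N P ∧ QQ N P c (rotE (i : ℤ) x)} =
        Nat.card {x // x ∈ GQ N P ∧ QQ N P c x} := by
      intro i _
      exact cnt_rot N P (i : ℤ) (fun x : α => QQ N P c x)
    rw [Finset.sum_congr rfl this, Finset.sum_const, Finset.card_range, smul_eq_mul]
  have hfin : P * W.card ≤ (1 + 2 * L) * (2 * P * Nat.card {x // x ∈ GQ N P ∧ QQ N P c x}) := by
    rw [← hgsum]
    calc P * W.card = ∑ _x ∈ W, P := by rw [Finset.sum_const, smul_eq_mul, mul_comm]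
      _ ≤ ∑ x ∈ W, (1 + 2 * L) * g x := Finset.sum_le_sum hg1
      _ = (1 + 2 * L) * ∑ x ∈ W, g x := by rw [Finset.mul_sum]
      _ ≤ (1 + 2 * L) * ∑ x ∈ V, g x :=
          Nat.mul_le_mul_left _ (Finset.sum_le_sum_of_subset (Finset.filter_subset _ _))
  have hfin' : (P : ℝ) * W.card ≤
      (1 + 2 * L) * (2 * P * Nat.card {x // x ∈ GQ N P ∧ QQ N P c x}) := by exact_mod_cast hfin
  rw [hVc]
  show c * (V.card : ℝ) ≤ (Nat.card {x // x ∈ GQ N P ∧ QQ N P c x} : ℝ)
  have h1 : (P : ℝ) * (V.card / 2) ≤ P * W.card := mul_le_mul_of_nonneg_left hWc hPR.le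
  have h2 : (V.card : ℝ) / 2 ≤ (1 + 2 * L) * (2 * Nat.card {x // x ∈ GQ N P ∧ QQ N P c x}) := by
    have : (P : ℝ) * (V.card / 2) ≤ P * ((1 + 2 * L) *
        (2 * Nat.card {x // x ∈ GQ N P ∧ QQ N P c x})) := by linarith
    exact le_of_mul_le_mul_left this hPR
  have h6 : c * (4 * (1 + 2 * (L : ℝ))) = 1 := by
    rw [hc]
    field_simp
  calc c * (V.card : ℝ) = 2 * c * (V.card / 2) := by ring
    _ ≤ 2 * c * ((1 + 2 * L) * (2 * Nat.card {x // x ∈ GQ N P ∧ QQ N P c x})) :=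
        mul_le_mul_of_nonneg_left h2 (by positivity)
    _ = (c * (4 * (1 + 2 * (L : ℝ)))) * Nat.card {x // x ∈ GQ N P ∧ QQ N P c x} := by ring
    _ = _ := by rw [h6, one_mul]

end

end QR65

theorem QR.st_A14 (h00 : QR.ST_A00) (h06 : QR.ST_A06) (h12 : QR.ST_A12) (h13 : QR.ST_A13) :
    QR.ST_A14 := QR65.st_A14 h00 h06 h12 h13
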