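import Pool.Agent.Helper98.QR.StmtsC

/-!
# QR block C, rows C24 and C25: common lemmas
-/

namespace QR65

noncomputable section

open QR PowerSeries Filter Topology

theorem ns_C {x : ℝ} (hx : 0 ≤ x) : NS (C x : PowerSeries ℝ) := by
  constructor
  · intro n
    rw [coeff_C]
    split_ifs
    · exact hx
    · exact le_rfl
  · refine summable_of_hasFiniteSupport ((Set.finite_singleton 0).subset ?_)
    intro n hn
    by_contra h
    apply hn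
    simp only [Set.mem_singleton_iff] at h
    show coeff n (C x : PowerSeries ℝ) = 0
    rw [coeff_C, if_neg h]

theorem tot_C (x : ℝ) : tot (C x : PowerSeries ℝ) = x := by
  unfold tot
  simp only [coeff_C]
  exact tsum_ite_eq 0 (fun _ => x)

theorem ns_X : NS (X : PowerSeries ℝ) := by
  constructor
  · intro n
    rw [coeff_X]
    split_ifs
    · exact zero_le_one
    · exact le_rfl
  · refine summable_of_hasFiniteSupport ((Set.finite_singleton 1).subset ?_)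
    intro n hn
    by_contra h
    apply hn
    simp only [Set.mem_singleton_iff] at h
    show coeff n (X : PowerSeries ℝ) = 0
    rw [coeff_X, if_neg h]

theorem tot_X : tot (X : PowerSeries ℝ) = 1 := by
  unfold tot
  simp only [coeff_X]
  exact tsum_ite_eq 1 (fun _ => (1 : ℝ))

theorem ns_add {a b : PowerSeries ℝ} (ha : NS a) (hb : NS b) : NS (a + b) := by
  constructor
  · intro n
    rw [map_add]
    exact add_nonneg (ha.1 n) (hb.1 n)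
  · simp only [map_add]
    exact ha.2.add hb.2

theorem tot_add {a b : PowerSeries ℝ} (ha : NS a) (hb : NS b) : tot (a + b) = tot a + tot b := by
  unfold tot
  simp only [map_add]
  exact ha.2.tsum_add hb.2

theorem tot_nonneg {a : PowerSeries ℝ} (ha : NS a) : 0 ≤ tot a := tsum_nonneg ha.1

theorem tot_mono {a b : PowerSeries ℝ} (ha : NS a) (hb : NS b)
    (h : ∀ n, coeff n a ≤ coeff n b) : tot a ≤ tot b := ha.2.tsum_le_tsum h hb.2

theorem dmp_nonneg {κ : ℝ} {r j x : ℤ} (h1 : κ < 1) : 0 ≤ dmp κ r j x := by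
  unfold dmp
  split_ifs <;> linarith

theorem dmp_le_one {κ : ℝ} {r j x : ℤ} (h0 : 0 < κ) : dmp κ r j x ≤ 1 := by
  unfold dmp
  split_ifs <;> linarith

/-- the sum of the neighbours -/
def SS (κ : ℝ) (r l : ℤ) : PowerSeries ℝ :=
  C (dmp κ r 1 (l - 1)) * DD κ r (l - 1) + C (dmp κ r 1 l) * DD κ r l +
    C (dmp κ r 1 (l + 1)) * DD κ r (l + 1)

theorem ns_SS (h12 : ST_C12) (h21 : ST_C21) {κ : ℝ} {r l : ℤ} (h0 : 0 < κ) (h1 : κ < 1)
    (hr : 1 ≤ r) (hl : 2 ≤ l) : NS (SS κ r l) := by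
  obtain ⟨-, hD, -⟩ := h21 κ r h0 h1 hr
  exact ns_add (ns_add (h12.1 _ _ (ns_C (dmp_nonneg h1)) (hD (l - 1) (by omega)).1).1
    (h12.1 _ _ (ns_C (dmp_nonneg h1)) (hD l (by omega)).1).1)
    (h12.1 _ _ (ns_C (dmp_nonneg h1)) (hD (l + 1) (by omega)).1).1

theorem tot_SS_le (h12 : ST_C12) (h21 : ST_C21) {κ : ℝ} {r l : ℤ} (h0 : 0 < κ) (h1 : κ < 1)
    (hr : 1 ≤ r) (hl : 2 ≤ l) :
    tot (SS κ r l) ≤ tot (DD κ r (l - 1)) + tot (DD κ r l) + tot (DD κ r (l + 1)) := by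
  obtain ⟨-, hD, -⟩ := h21 κ r h0 h1 hr
  have a1 := h12.1 _ _ (ns_C (dmp_nonneg (κ := κ) (r := r) (j := 1) (x := l - 1) h1)) (hD (l - 1) (by omega)).1
  have a2 := h12.1 _ _ (ns_C (dmp_nonneg (κ := κ) (r := r) (j := 1) (x := l) h1)) (hD l (by omega)).1
  have a3 := h12.1 _ _ (ns_C (dmp_nonneg (κ := κ) (r := r) (j := 1) (x := l + 1) h1)) (hD (l + 1) (by omega)).1
  unfold SS
  rw [tot_add (ns_add a1.1 a2.1) a3.1, tot_add a1.1 a2.1, a1.2, a2.2, a3.2, tot_C, tot_C, tot_C]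
  have b1 := tot_nonneg (hD (l - 1) (by omega)).1
  have b2 := tot_nonneg (hD l (by omega)).1
  have b3 := tot_nonneg (hD (l + 1) (by omega)).1
  have c1 := dmp_le_one (κ := κ) (r := r) (j := 1) (x := l - 1) h0
  have c2 := dmp_le_one (κ := κ) (r := r) (j := 1) (x := l) h0
  have c3 := dmp_le_one (κ := κ) (r := r) (j := 1) (x := l + 1) h0
  have d1 := mul_le_of_le_one_left b1 c1
  have d2 := mul_le_of_le_one_left b2 c2
  have d3 := mul_le_of_le_one_left b3 c3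
  linarith

theorem tot_DD_rec (h12 : ST_C12) (h21 : ST_C21) {κ : ℝ} {r l : ℤ} (h0 : 0 < κ) (h1 : κ < 1)
    (hr : 1 ≤ r) (hl : 2 ≤ l) :
    tot (DD κ r l) ≤ (tot (TS one (dmp κ r 1) l) * tot (TS one (dmp κ r 2) l) / 12) *
      (tot (DD κ r (l - 1)) + tot (DD κ r l) + tot (DD κ r (l + 1))) := by
  obtain ⟨hR, hD, hT⟩ := h21 κ r h0 h1 hr
  have t1 := (hT l (by omega) 1 (by simp) (by omega)).1
  have t2 := (hT l (by omega) 2 (by simp) hl).1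
  have s := ns_SS h12 h21 h0 h1 hr hl
  have e := hR l hl
  have q1 := h12.1 _ _ (ns_C (show (0 : ℝ) ≤ 1 / 12 by norm_num)) ns_X
  have q2 := h12.1 _ _ q1.1 t1
  have q3 := h12.1 _ _ q2.1 t2
  have q4 := h12.1 _ _ q3.1 s
  have e' : tot (DD κ r l) = 1 / 12 * 1 * tot (TS one (dmp κ r 1) l) *
      tot (TS one (dmp κ r 2) l) * tot (SS κ r l) := by
    calc tot (DD κ r l) = tot (C (1 / 12) * X * TS one (dmp κ r 1) l * TS one (dmp κ r 2) l *
          SS κ r l) := congrArg tot e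
      _ = _ := by rw [q4.2, q3.2, q2.2, q1.2, tot_C, tot_X]
  have n1 := tot_nonneg t1
  have n2 := tot_nonneg t2
  have n3 := tot_SS_le h12 h21 h0 h1 hr hl
  have : 1 / 12 * 1 * tot (TS one (dmp κ r 1) l) * tot (TS one (dmp κ r 2) l) * tot (SS κ r l) =
    (tot (TS one (dmp κ r 1) l) * tot (TS one (dmp κ r 2) l) / 12) * tot (SS κ r l) := by ring
  calc tot (DD κ r l) = _ := e'
    _ = _ := this
    _ ≤ _ := mul_le_mul_of_nonneg_left n3 (by positivity)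

/-! ## The numbers attached to `t` -/

section T

variable {t : ℕ}

theorem U_pos (ht : 2 ≤ t) : (65536 : ℤ) ≤ (t : ℤ) ^ 16 := by
  have : (2 : ℤ) ≤ t := by exact_mod_cast ht
  calc (65536 : ℤ) = 2 ^ 16 := by norm_num
    _ ≤ (t : ℤ) ^ 16 := pow_le_pow_left₀ (by norm_num) this 16

theorem kap_pos (ht : 2 ≤ t) : 0 < 1 / (t : ℝ) ^ 56 := by
  have : (0 : ℝ) < t := by exact_mod_cast (by omega : 0 < t)
  positivity

theorem kap_le (ht : 2 ≤ t) : 1 / (t : ℝ) ^ 56 ≤ 1 / 16 := by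
  have h : (2 : ℝ) ≤ t := by exact_mod_cast ht
  have : (2 : ℝ) ^ 56 ≤ (t : ℝ) ^ 56 := pow_le_pow_left₀ (by norm_num) h 56
  apply one_div_le_one_div_of_le (by norm_num)
  calc (16 : ℝ) ≤ 2 ^ 56 := by norm_num
    _ ≤ _ := this

theorem sqrt_kap (_ht : 2 ≤ t) : Real.sqrt (1 / (t : ℝ) ^ 56) = 1 / (t : ℝ) ^ 28 := by
  have : 1 / (t : ℝ) ^ 56 = (1 / (t : ℝ) ^ 28) ^ 2 := by
    rw [div_pow, one_pow, ← pow_mul]
  rw [this, Real.sqrt_sq (by positivity)]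

theorem r_cond (ht : 2 ≤ t) :
    1 / (((4 * (t : ℤ) ^ 16 : ℤ) : ℝ)) ^ 2 ≤ Real.sqrt (1 / (t : ℝ) ^ 56) := by
  have h : (2 : ℝ) ≤ t := by exact_mod_cast ht
  rw [sqrt_kap ht]
  apply one_div_le_one_div_of_le (by positivity)
  push_cast
  have h28 : (t : ℝ) ^ 28 ≤ (t : ℝ) ^ 32 := pow_le_pow_right₀ (by linarith) (by norm_num)
  have : (4 * (t : ℝ) ^ 16) ^ 2 = 16 * (t : ℝ) ^ 32 := by ring
  rw [this]
  nlinarith [show (0 : ℝ) ≤ (t : ℝ) ^ 32 by positivity]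

theorem r_pos (ht : 2 ≤ t) : (1 : ℤ) ≤ 4 * (t : ℤ) ^ 16 := by
  have := U_pos ht
  omega

/-- `δ = (7 / 32) t ^ (-28)` -/
def del (t : ℕ) : ℝ := 7 / 32 / (t : ℝ) ^ 28

theorem del_pos (ht : 2 ≤ t) : 0 < del t := by
  have : (0 : ℝ) < t := by exact_mod_cast (by omega : 0 < t)
  unfold del
  positivity

theorem del_lt (ht : 2 ≤ t) : del t < 1 := by
  have h : (2 : ℝ) ≤ t := by exact_mod_cast ht
  have : (1 : ℝ) ≤ (t : ℝ) ^ 28 := one_le_pow₀ (by linarith)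
  unfold del
  rw [div_lt_one (by positivity)]
  linarith

/-- `x = 1 - t ^ (-14) / 4` -/
def xx (t : ℕ) : ℝ := 1 - 1 / (4 * (t : ℝ) ^ 14)

theorem xx_bound (ht : 2 ≤ t) : 1 / (4 * (t : ℝ) ^ 14) ≤ 1 / 2 := by
  have h : (2 : ℝ) ≤ t := by exact_mod_cast ht
  have : (1 : ℝ) ≤ (t : ℝ) ^ 14 := one_le_pow₀ (by linarith)
  apply one_div_le_one_div_of_le (by norm_num)
  linarith

theorem xx_pos (ht : 2 ≤ t) : 0 < xx t := by
  have := xx_bound ht
  unfold xx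
  linarith

theorem xx_half (ht : 2 ≤ t) : 1 / 2 ≤ xx t := by
  have := xx_bound ht
  unfold xx
  linarith

theorem xx_le_one (ht : 2 ≤ t) : xx t ≤ 1 := by
  have h : (0 : ℝ) < t := by exact_mod_cast (by omega : 0 < t)
  have : (0 : ℝ) ≤ 1 / (4 * (t : ℝ) ^ 14) := by positivity
  unfold xx
  linarith

theorem xx_key (ht : 2 ≤ t) : (1 - del t) * ((xx t)⁻¹ + 1 + xx t) / 3 ≤ 1 := by
  have hx := xx_pos ht
  have hh := xx_half ht
  have hd := del_pos ht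
  have hd1 := del_lt ht
  have h : (0 : ℝ) < t := by exact_mod_cast (by omega : 0 < t)
  set e : ℝ := 1 / (t : ℝ) ^ 14 with he
  have he0 : 0 < e := by positivity
  have hxe : xx t = 1 - e / 4 := by
    unfold xx
    rw [he]
    field_simp
  have hde : del t = 7 / 32 * e ^ 2 := by
    unfold del
    rw [he, div_pow, one_pow, ← pow_mul]
    ring
  -- x⁻¹ + 1 + x = 3 + (1-x)^2/x
  have h1 : (xx t)⁻¹ + 1 + xx t = 3 + (1 - xx t) ^ 2 * (xx t)⁻¹ := by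
    field_simp
    ring
  have hinv : (xx t)⁻¹ ≤ 2 := by
    rw [inv_le_comm₀ hx (by norm_num)]
    linarith
  have h2 : (1 - xx t) ^ 2 * (xx t)⁻¹ ≤ e ^ 2 / 8 := by
    have : (1 - xx t) ^ 2 = e ^ 2 / 16 := by rw [hxe]; ring
    rw [this]
    have : 0 ≤ e ^ 2 / 16 := by positivity
    nlinarith
  have h3 : 0 ≤ (1 - xx t) ^ 2 * (xx t)⁻¹ := by positivity
  rw [h1]
  -- (1-δ)(3+s)/3 ≤ 1 , s ≤ e^2/8 ≤ 3 δ
  have h4 : (1 - xx t) ^ 2 * (xx t)⁻¹ ≤ 3 * del t := by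
    rw [hde]
    have : 0 ≤ e ^ 2 := by positivity
    linarith
  nlinarith

/-- powers of `x` -/
theorem xx_pow (ht : 2 ≤ t) (n : ℕ) : xx t ^ n ≤ Real.exp (-(n : ℝ) * (1 / (4 * (t : ℝ) ^ 14))) := by
  have h1 : xx t ≤ Real.exp (-(1 / (4 * (t : ℝ) ^ 14))) := by
    have := Real.add_one_le_exp (-(1 / (4 * (t : ℝ) ^ 14)))
    unfold xx
    linarith
  calc xx t ^ n ≤ (Real.exp (-(1 / (4 * (t : ℝ) ^ 14)))) ^ n :=
        pow_le_pow_left₀ (xx_pos ht).le h1 n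
    _ = _ := by
        rw [← Real.exp_nat_mul]
        congr 1
        ring

end T

/-! ## Bounds for the coefficient -/

theorem tot_TS1_le (h20 : ST_C20) {t : ℕ} (ht : 2 ≤ t) {l : ℤ} (hl : 1 ≤ l)
    (hl3 : l ≤ 3 * (t : ℤ) ^ 16) :
    tot (TS one (dmp (1 / (t : ℝ) ^ 56) (4 * t ^ 16) 1) l) ≤ 2 * (1 - del t) := by
  obtain ⟨-, -, h3⟩ := h20 (1 / (t : ℝ) ^ 56) (4 * (t : ℤ) ^ 16) (kap_pos ht) (kap_le ht) (r_pos ht)
    (r_cond ht) l hl
  have hU := U_pos ht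
  have hlr : l ≤ 4 * (t : ℤ) ^ 16 := by omega
  refine (h3 hlr).trans ?_
  rw [sqrt_kap ht]
  have hl0 : (0 : ℝ) ≤ l := by exact_mod_cast (by omega : (0 : ℤ) ≤ l)
  have hl3' : (l : ℝ) ≤ 3 * (t : ℝ) ^ 16 := by exact_mod_cast hl3
  have hUR : (65536 : ℝ) ≤ (t : ℝ) ^ 16 := by exact_mod_cast hU
  have hq : (l : ℝ) / ((4 * (t : ℤ) ^ 16 : ℤ) : ℝ) ≤ 3 / 4 := by
    push_cast
    rw [div_le_iff₀ (by positivity)]
    linarith
  have hq0 : 0 ≤ (l : ℝ) / ((4 * (t : ℤ) ^ 16 : ℤ) : ℝ) := by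
    push_cast
    positivity
  have hq2 : ((l : ℝ) / ((4 * (t : ℤ) ^ 16 : ℤ) : ℝ)) ^ 2 ≤ 9 / 16 := by
    nlinarith
  have hs : 0 ≤ 1 / (t : ℝ) ^ 28 := by positivity
  have hde : del t = 7 / 32 * (1 / (t : ℝ) ^ 28) := by
    unfold del
    ring
  rw [hde]
  nlinarith

theorem cc_small (h20 : ST_C20) (h21 : ST_C21) {t : ℕ} (ht : 2 ≤ t) {l : ℤ} (hl : 2 ≤ l)
    (hl3 : l ≤ 3 * (t : ℤ) ^ 16) :
    tot (TS one (dmp (1 / (t : ℝ) ^ 56) (4 * t ^ 16) 1) l) *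
      tot (TS one (dmp (1 / (t : ℝ) ^ 56) (4 * t ^ 16) 2) l) / 12 ≤ (1 - del t) / 3 := by
  have h1 := tot_TS1_le h20 ht (by omega : 1 ≤ l) hl3
  have hk := kap_le ht
  obtain ⟨-, -, hT⟩ := h21 (1 / (t : ℝ) ^ 56) (4 * (t : ℤ) ^ 16) (kap_pos ht) (by linarith) (r_pos ht)
  have a1 := hT l (by omega) 1 (by simp) (by omega)
  have a2 := hT l (by omega) 2 (by simp) hl
  have n1 := tot_nonneg a1.1
  have n2 := tot_nonneg a2.1
  have h2 := a1.2.2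
  have hd := del_pos ht
  have hd1 := del_lt ht
  set A := tot (TS one (dmp (1 / (t : ℝ) ^ 56) (4 * t ^ 16) 1) l)
  set B := tot (TS one (dmp (1 / (t : ℝ) ^ 56) (4 * t ^ 16) 2) l)
  have hAB : A * B ≤ A * A := mul_le_mul_of_nonneg_left h2 n1
  have hAA : A * A ≤ (2 * (1 - del t)) * (2 * (1 - del t)) := mul_le_mul h1 h1 n1 (by linarith)
  nlinarith

/-- `c l = (1 - 4 / (l + 1) ^ 2) / 3` for `l ≥ 1` -/
def cl (l : ℤ) : ℝ := if 1 ≤ l then (1 - 4 / ((l : ℝ) + 1) ^ 2) / 3 else 0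

theorem cl_nonneg (l : ℤ) : 0 ≤ cl l := by
  unfold cl
  split_ifs with h
  · have : (1 : ℝ) ≤ l := by exact_mod_cast h
    have : 4 / ((l : ℝ) + 1) ^ 2 ≤ 1 := by
      rw [div_le_one (by positivity)]
      nlinarith
    linarith
  · exact le_rfl

theorem cc_large (h10 : ST_C10) (h20 : ST_C20) (h21 : ST_C21) {t : ℕ} (ht : 2 ≤ t) {l : ℤ}
    (hl : 2 ≤ l) :
    tot (TS one (dmp (1 / (t : ℝ) ^ 56) (4 * t ^ 16) 1) l) *
      tot (TS one (dmp (1 / (t : ℝ) ^ 56) (4 * t ^ 16) 2) l) / 12 ≤ cl l := by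
  have hk := kap_le ht
  obtain ⟨-, -, hT⟩ := h21 (1 / (t : ℝ) ^ 56) (4 * (t : ℤ) ^ 16) (kap_pos ht) (by linarith) (r_pos ht)
  obtain ⟨-, h1, -⟩ := h20 (1 / (t : ℝ) ^ 56) (4 * (t : ℤ) ^ 16) (kap_pos ht) (kap_le ht) (r_pos ht)
    (r_cond ht) l (by omega)
  have a1 := hT l (by omega) 1 (by simp) (by omega)
  have a2 := hT l (by omega) 2 (by simp) hl
  have n1 := tot_nonneg a1.1
  have n2 := tot_nonneg a2.1
  have b := h10.1 (l - 1) (by omega)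
  have h2 : tot (TS one (dmp (1 / (t : ℝ) ^ 56) (4 * t ^ 16) 2) l) ≤ Aw (l - 1) := by
    rw [← b.2]
    refine tot_mono a2.1 b.1.1 (fun n => ?_)
    have := a2.2.1 n
    rwa [show l - 2 + 1 = l - 1 by ring] at this
  set A := tot (TS one (dmp (1 / (t : ℝ) ^ 56) (4 * t ^ 16) 1) l)
  set B := tot (TS one (dmp (1 / (t : ℝ) ^ 56) (4 * t ^ 16) 2) l)
  have hA : 0 ≤ Aw l := n1.trans h1
  have hAB : A * B ≤ Aw l * Aw (l - 1) := mul_le_mul h1 h2 n2 hA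
  have hlR : (2 : ℝ) ≤ l := by exact_mod_cast hl
  have e : Aw l * Aw (l - 1) / 12 = cl l := by
    unfold cl Aw
    rw [if_pos (by omega : (1 : ℤ) ≤ l)]
    push_cast
    have : (l : ℝ) ≠ 0 := by positivity
    have : (l : ℝ) + 1 ≠ 0 := by positivity
    have : (l : ℝ) + 2 ≠ 0 := by positivity
    have e1 : (l : ℝ) - 1 + 1 = l := by ring
    have e2 : (l : ℝ) - 1 + 2 = l + 1 := by ring
    have e3 : (l : ℝ) - 1 + 3 = l + 2 := by ring
    rw [e1, e2, e3]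
    field_simp
    ring
  rw [← e]
  linarith

end

end QR65
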