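import Pool.Agent.Helper65.QR.Base

/-!
# QR block C, row C24: total mass of the difference series
-/

namespace QR65

noncomputable section

open QR PowerSeries Filter Topology

/-- the barrier on the finite interval -/
def vb (t : ℕ) (a b l : ℤ) : ℝ := xx t ^ (l - a) + xx t ^ (b - l)

theorem vb_pos {t : ℕ} (ht : 2 ≤ t) (a b l : ℤ) : 0 < vb t a b l := by
  have := xx_pos ht
  unfold vb
  positivity

theorem vb_sum {t : ℕ} (ht : 2 ≤ t) (a b l : ℤ) :
    vb t a b (l - 1) + vb t a b l + vb t a b (l + 1) = ((xx t)⁻¹ + 1 + xx t) * vb t a b l := by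
  have hx := (xx_pos ht).ne'
  unfold vb
  have e1 : xx t ^ (l - 1 - a) = xx t ^ (l - a) * (xx t)⁻¹ := by
    rw [show l - 1 - a = (l - a) - 1 by ring, zpow_sub_one₀ hx]
  have e2 : xx t ^ (l + 1 - a) = xx t ^ (l - a) * xx t := by
    rw [show l + 1 - a = (l - a) + 1 by ring, zpow_add_one₀ hx]
  have e3 : xx t ^ (b - (l - 1)) = xx t ^ (b - l) * xx t := by
    rw [show b - (l - 1) = (b - l) + 1 by ring, zpow_add_one₀ hx]
  have e4 : xx t ^ (b - (l + 1)) = xx t ^ (b - l) * (xx t)⁻¹ := by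
    rw [show b - (l + 1) = (b - l) - 1 by ring, zpow_sub_one₀ hx]
  rw [e1, e2, e3, e4]
  ring

theorem vb_super {t : ℕ} (ht : 2 ≤ t) (a b l : ℤ) :
    (1 - del t) / 3 * (vb t a b (l - 1) + vb t a b l + vb t a b (l + 1)) ≤ vb t a b l := by
  rw [vb_sum ht]
  have h1 := xx_key ht
  have h2 := (vb_pos ht a b l).le
  calc (1 - del t) / 3 * (((xx t)⁻¹ + 1 + xx t) * vb t a b l)
      = ((1 - del t) * ((xx t)⁻¹ + 1 + xx t) / 3) * vb t a b l := by ring
    _ ≤ 1 * vb t a b l := mul_le_mul_of_nonneg_right h1 h2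
    _ = _ := one_mul _

theorem vb_left {t : ℕ} (ht : 2 ≤ t) (a b : ℤ) : 1 ≤ vb t a b a := by
  have := xx_pos ht
  unfold vb
  rw [sub_self, zpow_zero]
  have : 0 < xx t ^ (b - a) := by positivity
  linarith

theorem vb_right {t : ℕ} (ht : 2 ≤ t) (a b : ℤ) : 1 ≤ vb t a b b := by
  have := xx_pos ht
  unfold vb
  rw [sub_self, zpow_zero]
  have : 0 < xx t ^ (b - a) := by positivity
  linarith

/-- `x ^ m ≤ x ^ n ≤ exp` for `n ≤ m` -/
theorem xx_zpow_le {t : ℕ} (ht : 2 ≤ t) (m : ℤ) (n : ℕ) (h : (n : ℤ) ≤ m) :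
    xx t ^ m ≤ Real.exp (-(n : ℝ) * (1 / (4 * (t : ℝ) ^ 14))) := by
  have h0 := xx_pos ht
  have h1 := xx_le_one ht
  calc xx t ^ m ≤ xx t ^ (n : ℤ) := zpow_le_zpow_right_of_le_one₀ h0 h1 h
    _ = xx t ^ n := zpow_natCast _ _
    _ ≤ _ := xx_pow ht n

/-- step (ii): the value at `2 U` -/
theorem step2 (h12 : ST_C12) (h20 : ST_C20) (h21 : ST_C21) (h22 : ST_C22) {t : ℕ} (ht : 2 ≤ t) :
    tot (DD (1 / (t : ℝ) ^ 56) (4 * t ^ 16) (2 * (t : ℤ) ^ 16)) ≤
      8 / 3 * Real.exp (-(t : ℝ) ^ 2 / 4) := by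
  have hk := kap_le ht
  have hU := U_pos ht
  have hd := del_pos ht
  have hd1 := del_lt ht
  obtain ⟨-, hD, -⟩ := h21 (1 / (t : ℝ) ^ 56) (4 * (t : ℤ) ^ 16) (kap_pos ht) (by linarith) (r_pos ht)
  have key := h22 (fun _ => (1 - del t) / 3) (fun _ => 0)
    (fun l => tot (DD (1 / (t : ℝ) ^ 56) (4 * t ^ 16) l))
    (fun l => 4 / 3 * vb t 1 (3 * (t : ℤ) ^ 16) l) 1 (3 * (t : ℤ) ^ 16)
    (fun _ => by linarith) (fun _ => by linarith)
    (fun l hl1 hl2 => by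
      have r := tot_DD_rec h12 h21 (l := l) (kap_pos ht) (by linarith : 1 / (t : ℝ) ^ 56 < 1) (r_pos ht)
        (by omega)
      have c := cc_small h20 h21 ht (l := l) (by omega) (by omega)
      have n1 := tot_nonneg (hD (l - 1) (by omega)).1
      have n2 := tot_nonneg (hD l (by omega)).1
      have n3 := tot_nonneg (hD (l + 1) (by omega)).1
      have := mul_le_mul_of_nonneg_right c (by positivity :
        0 ≤ tot (DD (1 / (t : ℝ) ^ 56) (4 * t ^ 16) (l - 1)) + tot (DD (1 / (t : ℝ) ^ 56) (4 * t ^ 16) l) +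
          tot (DD (1 / (t : ℝ) ^ 56) (4 * t ^ 16) (l + 1)))
      simp only [add_zero]
      exact r.trans this)
    (fun l _ _ => by
      have := vb_super ht 1 (3 * (t : ℤ) ^ 16) l
      simp only [add_zero]
      linarith)
    (by
      have := (hD 1 le_rfl).2.1
      have v := vb_left ht 1 (3 * (t : ℤ) ^ 16)
      norm_num at this
      norm_num
      linarith)
    (by
      have h := (hD (3 * (t : ℤ) ^ 16) (by omega)).2.1
      have v := vb_right ht 1 (3 * (t : ℤ) ^ 16)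
      have hR : (1 : ℝ) ≤ ((3 * (t : ℤ) ^ 16 : ℤ) : ℝ) := by exact_mod_cast (by omega : (1 : ℤ) ≤ 3 * (t : ℤ) ^ 16)
      have h6 : 8 / ((((3 * (t : ℤ) ^ 16 : ℤ) : ℝ)) * ((((3 * (t : ℤ) ^ 16 : ℤ) : ℝ)) + 1) *
          ((((3 * (t : ℤ) ^ 16 : ℤ) : ℝ)) + 2)) ≤ 8 / 6 := by
        apply div_le_div_of_nonneg_left (by norm_num) (by norm_num)
        nlinarith [mul_nonneg (sub_nonneg.2 hR) (sub_nonneg.2 hR),
          mul_nonneg (mul_nonneg (sub_nonneg.2 hR) (sub_nonneg.2 hR)) (sub_nonneg.2 hR)]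
      show tot (DD (1 / (t : ℝ) ^ 56) (4 * t ^ 16) (3 * (t : ℤ) ^ 16)) ≤
        4 / 3 * vb t 1 (3 * (t : ℤ) ^ 16) (3 * (t : ℤ) ^ 16)
      linarith)
    (2 * (t : ℤ) ^ 16) (by omega) (by omega)
  refine le_trans key ?_
  show 4 / 3 * vb t 1 (3 * (t : ℤ) ^ 16) (2 * (t : ℤ) ^ 16) ≤ _
  unfold vb
  have a1 := xx_zpow_le ht (2 * (t : ℤ) ^ 16 - 1) (t ^ 16) (by push_cast; omega)
  have a2 := xx_zpow_le ht (3 * (t : ℤ) ^ 16 - 2 * (t : ℤ) ^ 16) (t ^ 16) (by push_cast; omega)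
  have e : -((t ^ 16 : ℕ) : ℝ) * (1 / (4 * (t : ℝ) ^ 14)) = -(t : ℝ) ^ 2 / 4 := by
    have : (t : ℝ) ≠ 0 := by
      have : (0 : ℝ) < t := by exact_mod_cast (by omega : 0 < t)
      exact this.ne'
    push_cast
    field_simp
  rw [e] at a1 a2
  linarith

/-- the exact solution `1 / (l (l + 1) (l + 2))` -/
def vex (l : ℤ) : ℝ := 1 / ((l : ℝ) * (l + 1) * (l + 2))

theorem vex_eq {l : ℤ} (hl : 2 ≤ l) : cl l * (vex (l - 1) + vex l + vex (l + 1)) = vex l := by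
  have h : (2 : ℝ) ≤ l := by exact_mod_cast hl
  unfold cl vex
  rw [if_pos (by omega)]
  push_cast
  have e1 : (l : ℝ) - 1 + 1 = l := by ring
  have e2 : (l : ℝ) - 1 + 2 = l + 1 := by ring
  have e3 : (l : ℝ) + 1 + 1 = l + 2 := by ring
  have e4 : (l : ℝ) + 1 + 2 = l + 3 := by ring
  rw [e1, e2, e3, e4]
  have h1 : (l : ℝ) - 1 ≠ 0 := by
    have : (0 : ℝ) < l - 1 := by linarith
    exact this.ne'
  have h2 : (l : ℝ) ≠ 0 := by positivity
  have h3 : (l : ℝ) + 1 ≠ 0 := by positivity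
  have h4 : (l : ℝ) + 2 ≠ 0 := by positivity
  have h5 : (l : ℝ) + 3 ≠ 0 := by positivity
  field_simp
  ring

/-- `w l = (l + 1) ^ 3` -/
def w3 (l : ℤ) : ℝ := if 0 ≤ l then ((l : ℝ) + 1) ^ 3 else 1

theorem w3_pos (l : ℤ) : 0 < w3 l := by
  unfold w3
  split_ifs with h
  · have : (0 : ℝ) ≤ l := by exact_mod_cast h
    positivity
  · exact one_pos

theorem w3_super {l : ℤ} (hl : 1 ≤ l) : cl l * (w3 (l - 1) + w3 l + w3 (l + 1)) < w3 l := by
  have h : (1 : ℝ) ≤ l := by exact_mod_cast hl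
  unfold cl w3
  rw [if_pos hl, if_pos (by omega), if_pos (by omega), if_pos (by omega)]
  push_cast
  have hm : 0 < (l : ℝ) + 1 := by linarith
  have e : (1 - 4 / ((l : ℝ) + 1) ^ 2) / 3 * (((l : ℝ) - 1 + 1) ^ 3 + (l + 1) ^ 3 + (l + 1 + 1) ^ 3) =
      ((l : ℝ) + 1) ^ 3 - 2 * (l + 1) - 8 / (l + 1) := by
    field_simp
    ring
  rw [e]
  have : 0 < 8 / ((l : ℝ) + 1) := by positivity
  linarith

theorem st_C24 (h10 : ST_C10) (h12 : ST_C12) (h20 : ST_C20) (h21 : ST_C21) (h22 : ST_C22)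
    (h23 : ST_C23) : ST_C24 := by
  intro t l ht hl
  have hk := kap_le ht
  have hU := U_pos ht
  obtain ⟨-, hD, -⟩ := h21 (1 / (t : ℝ) ^ 56) (4 * (t : ℤ) ^ 16) (kap_pos ht) (by linarith) (r_pos ht)
  have hUR : (65536 : ℝ) ≤ (t : ℝ) ^ 16 := by exact_mod_cast hU
  set N : ℝ := (2 * (t : ℝ) ^ 16) * (2 * (t : ℝ) ^ 16 + 1) * (2 * (t : ℝ) ^ 16 + 2) with hN
  have hNpos : 0 < N := by positivity
  set E : ℝ := Real.exp (-(t : ℝ) ^ 2 / 4) with hE
  have hEpos : 0 < E := Real.exp_pos _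
  have key := h23 cl (fun _ => 0) (fun l => tot (DD (1 / (t : ℝ) ^ 56) (4 * t ^ 16) l))
    (fun l => 8 / 3 * E * N * vex l) w3 (2 * (t : ℤ) ^ 16) cl_nonneg w3_pos
    (fun l hl => w3_super (by omega))
    (fun l hl => by
      have r := tot_DD_rec h12 h21 (l := l) (kap_pos ht) (by linarith : 1 / (t : ℝ) ^ 56 < 1) (r_pos ht)
        (by omega)
      have c := cc_large h10 h20 h21 ht (l := l) (by omega)
      have n1 := tot_nonneg (hD (l - 1) (by omega)).1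
      have n2 := tot_nonneg (hD l (by omega)).1
      have n3 := tot_nonneg (hD (l + 1) (by omega)).1
      have := mul_le_mul_of_nonneg_right c (by positivity :
        0 ≤ tot (DD (1 / (t : ℝ) ^ 56) (4 * t ^ 16) (l - 1)) + tot (DD (1 / (t : ℝ) ^ 56) (4 * t ^ 16) l) +
          tot (DD (1 / (t : ℝ) ^ 56) (4 * t ^ 16) (l + 1)))
      simp only [add_zero]
      exact r.trans this)
    (fun l hl => by
      have := vex_eq (l := l) (by omega)
      simp only [add_zero]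
      have e : cl l * (8 / 3 * E * N * vex (l - 1) + 8 / 3 * E * N * vex l + 8 / 3 * E * N * vex (l + 1))
        = 8 / 3 * E * N * (cl l * (vex (l - 1) + vex l + vex (l + 1))) := by ring
      rw [e, this])
    (fun ε hε => by
      refine ⟨max 1 ⌈8 / ε⌉, fun l hl => ?_⟩
      have l1 : (1 : ℤ) ≤ l := (le_max_left _ _).trans hl
      have l2 : 8 / ε ≤ l := by
        have := (Int.le_ceil (8 / ε))
        have h2 : (⌈8 / ε⌉ : ℝ) ≤ l := by exact_mod_cast (le_max_right _ _).trans hl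
        linarith
      have lR : (1 : ℝ) ≤ l := by exact_mod_cast l1
      have d := (hD l l1).2.1
      have hv : 0 ≤ 8 / 3 * E * N * vex l := by
        unfold vex
        positivity
      have h8 : 8 ≤ ε * l := by
        rw [div_le_iff₀ hε] at l2
        linarith
      have h9 : 8 / ((l : ℝ) * (l + 1) * (l + 2)) ≤ 8 := by
        apply div_le_self (by norm_num)
        nlinarith [mul_nonneg (sub_nonneg.2 lR) (sub_nonneg.2 lR)]
      have hw : (l : ℝ) ≤ w3 l := by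
        unfold w3
        rw [if_pos (by omega)]
        nlinarith [mul_nonneg (sub_nonneg.2 lR) (sub_nonneg.2 lR), sq_nonneg ((l : ℝ) + 1)]
      have : ε * l ≤ ε * w3 l := mul_le_mul_of_nonneg_left hw hε.le
      linarith)
    (by
      show tot (DD (1 / (t : ℝ) ^ 56) (4 * t ^ 16) (2 * (t : ℤ) ^ 16)) ≤ 8 / 3 * E * N * vex (2 * (t : ℤ) ^ 16)
      have s := step2 h12 h20 h21 h22 ht
      have e : N * vex (2 * (t : ℤ) ^ 16) = 1 := by
        unfold vex
        push_cast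
        rw [hN]
        field_simp
      rw [mul_assoc, e, mul_one]
      exact s)
    l hl
  refine le_trans key ?_
  show 8 / 3 * E * N * vex l ≤ 3 * E * (2 * (t : ℝ) ^ 16 + 2) ^ 3 / (l : ℝ) ^ 3
  have hlR : (0 : ℝ) < l := by exact_mod_cast (by omega : (0 : ℤ) < l)
  have h1 : vex l ≤ 1 / (l : ℝ) ^ 3 := by
    unfold vex
    apply one_div_le_one_div_of_le (by positivity)
    nlinarith [mul_pos hlR hlR]
  have h2 : N ≤ (2 * (t : ℝ) ^ 16 + 2) ^ 3 := by
    rw [hN]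
    have a : (0 : ℝ) ≤ (t : ℝ) ^ 16 := by linarith
    have : (2 * (t : ℝ) ^ 16 + 2) ^ 3 = (2 * (t : ℝ) ^ 16 + 2) * (2 * (t : ℝ) ^ 16 + 2) * (2 * (t : ℝ) ^ 16 + 2) := by ring
    rw [this]
    gcongr
    · linarith
    · norm_num
  calc 8 / 3 * E * N * vex l ≤ 8 / 3 * E * N * (1 / (l : ℝ) ^ 3) :=
        mul_le_mul_of_nonneg_left h1 (by positivity)
    _ ≤ 3 * E * (2 * (t : ℝ) ^ 16 + 2) ^ 3 * (1 / (l : ℝ) ^ 3) := by
        apply mul_le_mul_of_nonneg_right _ (by positivity)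
        nlinarith [mul_nonneg hEpos.le (sub_nonneg.2 h2), mul_pos hEpos hNpos]
    _ = _ := by ring

end

end QR65

theorem QR.st_C24 (h10 : QR.ST_C10) (h12 : QR.ST_C12) (h20 : QR.ST_C20) (h21 : QR.ST_C21)
    (h22 : QR.ST_C22) (h23 : QR.ST_C23) : QR.ST_C24 := QR65.st_C24 h10 h12 h20 h21 h22 h23
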