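import Pool.Agent.Helper65.QR.C24

/-!
# QR block C, row C25: tail constant of the difference series
-/

namespace QR65

noncomputable section

open QR PowerSeries Filter Topology

theorem Aw_le_two {l : ℤ} (hl : 0 ≤ l) : Aw l ≤ 2 := by
  have h : (0 : ℝ) ≤ l := by exact_mod_cast hl
  unfold Aw
  rw [div_le_iff₀ (by positivity)]
  nlinarith

section

variable {t : ℕ}

/-- all facts about `u l = tau (DD l)` -/
theorem tau_facts (h11 : ST_C11) (h21 : ST_C21) {κ : ℝ} {r : ℤ} (h0 : 0 < κ) (h1 : κ < 1)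
    (hr : 1 ≤ r) {l : ℤ} (hl : 1 ≤ l) :
    TL (DD κ r l) (tau (DD κ r l)) ∧ 0 ≤ tau (DD κ r l) ∧ tau (DD κ r l) ≤ 8 * ((l : ℝ) + 1) ^ 3 := by
  obtain ⟨-, hD, -⟩ := h21 κ r h0 h1 hr
  have hl' : (1 : ℝ) ≤ l := by exact_mod_cast hl
  exact h11.2.2.2.2.2.1 _ _ (by positivity) (hD l hl).2.2

theorem tau_rec (h10 : ST_C10) (h11 : ST_C11) (h12 : ST_C12) (h20 : ST_C20) (h21 : ST_C21)
    (ht : 2 ≤ t) {l : ℤ} (hl : 2 ≤ l) :
    tau (DD (1 / (t : ℝ) ^ 56) (4 * t ^ 16) l) ≤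
      (tot (TS one (dmp (1 / (t : ℝ) ^ 56) (4 * t ^ 16) 1) l) *
        tot (TS one (dmp (1 / (t : ℝ) ^ 56) (4 * t ^ 16) 2) l) / 12) *
      (tau (DD (1 / (t : ℝ) ^ 56) (4 * t ^ 16) (l - 1)) + tau (DD (1 / (t : ℝ) ^ 56) (4 * t ^ 16) l) +
        tau (DD (1 / (t : ℝ) ^ 56) (4 * t ^ 16) (l + 1))) +
      4 / 3 * ((l : ℝ) + 1) ^ 4 *
      (tot (DD (1 / (t : ℝ) ^ 56) (4 * t ^ 16) (l - 1)) + tot (DD (1 / (t : ℝ) ^ 56) (4 * t ^ 16) l) +
        tot (DD (1 / (t : ℝ) ^ 56) (4 * t ^ 16) (l + 1))) := by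
  have hk := kap_le ht
  have hk0 := kap_pos ht
  have hrp := r_pos ht
  have hk1 : 1 / (t : ℝ) ^ 56 < 1 := by linarith
  obtain ⟨-, hA, -⟩ := h20 (1 / (t : ℝ) ^ 56) (4 * (t : ℤ) ^ 16) hk0 hk hrp (r_cond ht) l (by omega)
  generalize hκ : 1 / (t : ℝ) ^ 56 = κ at *
  generalize hrr : 4 * (t : ℤ) ^ 16 = r at *
  have hlR : (2 : ℝ) ≤ l := by exact_mod_cast hl
  obtain ⟨hR, hD, hT⟩ := h21 κ r hk0 hk1 hrp
  have t1 := hT l (by omega) 1 (by simp) (by omega)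
  have t2 := hT l (by omega) 2 (by simp) hl
  have u1 := tau_facts h11 h21 hk0 hk1 hrp (by omega : 1 ≤ l - 1)
  have u2 := tau_facts h11 h21 hk0 hk1 hrp (by omega : 1 ≤ l)
  have u3 := tau_facts h11 h21 hk0 hk1 hrp (by omega : 1 ≤ l + 1)
  have s := ns_SS h12 h21 hk0 hk1 hrp hl
  have sle := tot_SS_le h12 h21 hk0 hk1 hrp hl
  -- the tail constants of the factors
  have b1 : TL (TS one (dmp κ r 1) l) (4 * ((l : ℝ) + 1) ^ 4) := by
    refine h11.2.2.2.1 _ _ _ t1.1.1 (fun n => ?_) (h10.1 l (by omega)).1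
    have := t1.2.1 n
    rwa [show l - 1 + 1 = l by ring] at this
  have b2 : TL (TS one (dmp κ r 2) l) (4 * ((l : ℝ) + 1) ^ 4) := by
    have : TL (TS one (dmp κ r 2) l) (4 * (((l - 1 : ℤ) : ℝ) + 1) ^ 4) := by
      refine h11.2.2.2.1 _ _ _ t2.1.1 (fun n => ?_) (h10.1 (l - 1) (by omega)).1
      have := t2.2.1 n
      rwa [show l - 2 + 1 = l - 1 by ring] at this
    refine h11.2.2.2.2.1 _ _ _ this ?_
    push_cast
    have e1 : (0 : ℝ) ≤ l - 1 + 1 := by linarith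
    have e2 : (l : ℝ) - 1 + 1 ≤ l + 1 := by linarith
    have := pow_le_pow_left₀ e1 e2 4
    linarith
  have bS : TL (SS κ r l) (tau (DD κ r (l - 1)) + tau (DD κ r l) + tau (DD κ r (l + 1))) := by
    have c1 := h11.2.1 (dmp κ r 1 (l - 1)) _ _ (dmp_nonneg hk1) u1.1
    have c2 := h11.2.1 (dmp κ r 1 l) _ _ (dmp_nonneg hk1) u2.1
    have c3 := h11.2.1 (dmp κ r 1 (l + 1)) _ _ (dmp_nonneg hk1) u3.1
    refine h11.2.2.2.2.1 _ _ _ (h11.1 _ _ _ _ (h11.1 _ _ _ _ c1 c2) c3) ?_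
    have d1 := mul_le_of_le_one_left u1.2.1 (dmp_le_one (κ := κ) (r := r) (j := 1) (x := l - 1) hk0)
    have d2 := mul_le_of_le_one_left u2.2.1 (dmp_le_one (κ := κ) (r := r) (j := 1) (x := l) hk0)
    have d3 := mul_le_of_le_one_left u3.2.1 (dmp_le_one (κ := κ) (r := r) (j := 1) (x := l + 1) hk0)
    linarith
  have n1 := tot_nonneg t1.1
  have n2 := tot_nonneg t2.1
  have nS := tot_nonneg s
  have hu : 0 ≤ tau (DD κ r (l - 1)) + tau (DD κ r l) + tau (DD κ r (l + 1)) := by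
    have := u1.2.1
    have := u2.2.1
    have := u3.2.1
    linarith
  have q : (0 : ℝ) ≤ 4 * ((l : ℝ) + 1) ^ 4 := by positivity
  have p12 := h12.2 _ _ _ _ q q b1 b2
  have m12 := h12.1 _ _ t1.1 t2.1
  have p123 := h12.2 _ _ _ _ (by positivity) hu p12 bS
  have px := h11.2.2.1 _ _ p123
  have pc := h11.2.1 (1 / 12) _ _ (by norm_num) px
  have e : DD κ r l = C (1 / 12) * (X * (TS one (dmp κ r 1) l * TS one (dmp κ r 2) l * SS κ r l)) := by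
    rw [hR l hl]
    unfold SS
    ring
  rw [← e] at pc
  have fin := h11.2.2.2.2.2.1 _ _ (by rw [m12.2]; positivity) pc
  refine fin.2.2.trans ?_
  rw [m12.2]
  have hA2 : tot (TS one (dmp κ r 1) l) ≤ 2 := hA.trans (Aw_le_two (by omega))
  have hB2 : tot (TS one (dmp κ r 2) l) ≤ 2 := t2.2.2.trans hA2
  have k1 : 4 * ((l : ℝ) + 1) ^ 4 * tot (TS one (dmp κ r 2) l) +
      tot (TS one (dmp κ r 1) l) * (4 * ((l : ℝ) + 1) ^ 4) ≤ 16 * ((l : ℝ) + 1) ^ 4 := by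
    have a1 := mul_le_mul_of_nonneg_left hB2 q
    have a2 := mul_le_mul_of_nonneg_right hA2 q
    linarith
  have k2 : (4 * ((l : ℝ) + 1) ^ 4 * tot (TS one (dmp κ r 2) l) +
      tot (TS one (dmp κ r 1) l) * (4 * ((l : ℝ) + 1) ^ 4)) * tot (SS κ r l) ≤
      16 * ((l : ℝ) + 1) ^ 4 * (tot (DD κ r (l - 1)) + tot (DD κ r l) + tot (DD κ r (l + 1))) :=
    mul_le_mul k1 sle nS (by positivity)
  linarith

/-- `w l = (l + 1) ^ 4` -/
def w4 (l : ℤ) : ℝ := if 0 ≤ l then ((l : ℝ) + 1) ^ 4 else 1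

theorem w4_pos (l : ℤ) : 0 < w4 l := by
  unfold w4
  split_ifs with h
  · have : (0 : ℝ) ≤ l := by exact_mod_cast h
    positivity
  · exact one_pos

theorem w4_super {l : ℤ} (hl : 1 ≤ l) : cl l * (w4 (l - 1) + w4 l + w4 (l + 1)) < w4 l := by
  have h : (1 : ℝ) ≤ l := by exact_mod_cast hl
  unfold cl w4
  rw [if_pos hl, if_pos (by omega), if_pos (by omega), if_pos (by omega)]
  push_cast
  have hm : 0 < (l : ℝ) + 1 := by linarith
  have e : (1 - 4 / ((l : ℝ) + 1) ^ 2) / 3 * (((l : ℝ) - 1 + 1) ^ 4 + (l + 1) ^ 4 + (l + 1 + 1) ^ 4) =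
      ((l : ℝ) + 1) ^ 4 - 46 / 3 - 8 / 3 / (l + 1) ^ 2 := by
    field_simp
    ring
  rw [e]
  have : 0 < 8 / 3 / ((l : ℝ) + 1) ^ 2 := by positivity
  linarith

theorem w3_eq {l : ℤ} (hl : 1 ≤ l) :
    cl l * (w3 (l - 1) + w3 l + w3 (l + 1)) = w3 l - 2 * (l + 1) - 8 / (l + 1) := by
  have h : (1 : ℝ) ≤ l := by exact_mod_cast hl
  unfold cl w3
  rw [if_pos hl, if_pos (by omega), if_pos (by omega), if_pos (by omega)]
  push_cast
  have hm : 0 < (l : ℝ) + 1 := by linarith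
  field_simp
  ring

theorem totD_le (h24 : ST_C24) (ht : 2 ≤ t) {l : ℤ} (hl : 2 * (t : ℤ) ^ 16 ≤ l) :
    tot (DD (1 / (t : ℝ) ^ 56) (4 * t ^ 16) l) ≤ 4 * Real.exp (-(t : ℝ) ^ 2 / 4) := by
  refine (h24 t l ht hl).trans ?_
  have hU := U_pos ht
  have hUR : (65536 : ℝ) ≤ (t : ℝ) ^ 16 := by exact_mod_cast hU
  have hlR : 2 * (t : ℝ) ^ 16 ≤ l := by exact_mod_cast hl
  have hl0 : (0 : ℝ) < l := by linarith
  have hE := Real.exp_pos (-(t : ℝ) ^ 2 / 4)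
  rw [div_le_iff₀ (by positivity)]
  have h1 : (2 * (t : ℝ) ^ 16 + 2) ≤ 33 / 32 * l := by linarith
  have h2 : (2 * (t : ℝ) ^ 16 + 2) ^ 3 ≤ (33 / 32 * l) ^ 3 := pow_le_pow_left₀ (by linarith) h1 3
  have h3 : (33 / 32 * (l : ℝ)) ^ 3 ≤ 4 / 3 * (l : ℝ) ^ 3 := by
    rw [mul_pow]
    have : 0 < (l : ℝ) ^ 3 := by positivity
    nlinarith
  calc 3 * Real.exp (-(t : ℝ) ^ 2 / 4) * (2 * (t : ℝ) ^ 16 + 2) ^ 3
      ≤ 3 * Real.exp (-(t : ℝ) ^ 2 / 4) * (4 / 3 * (l : ℝ) ^ 3) :=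
        mul_le_mul_of_nonneg_left (h2.trans h3) (by positivity)
    _ = _ := by ring

/-- the error term on the finite interval -/
def es (t : ℕ) : ℝ := 16 * Real.exp (-(t : ℝ) ^ 2 / 4) * (3 * (t : ℝ) ^ 16 + 1) ^ 4

theorem stepI (h10 : ST_C10) (h11 : ST_C11) (h12 : ST_C12) (h20 : ST_C20) (h21 : ST_C21)
    (h22 : ST_C22) (h24 : ST_C24) (ht : 2 ≤ t) :
    tau (DD (1 / (t : ℝ) ^ 56) (4 * t ^ 16) (2 * (t : ℤ) ^ 16 + (t : ℤ) ^ 16 / 2)) ≤
      16 * (3 * (t : ℝ) ^ 16 + 1) ^ 3 * Real.exp (-(t : ℝ) ^ 2 / 16) + es t / del t := by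
  have hk := kap_le ht
  have hk1 : 1 / (t : ℝ) ^ 56 < 1 := by linarith
  have hU := U_pos ht
  have hUR : (65536 : ℝ) ≤ (t : ℝ) ^ 16 := by exact_mod_cast hU
  have hd := del_pos ht
  have hd1 := del_lt ht
  have hE := Real.exp_pos (-(t : ℝ) ^ 2 / 4)
  have hes : 0 < es t := by unfold es; positivity
  obtain ⟨-, hD, -⟩ := h21 (1 / (t : ℝ) ^ 56) (4 * (t : ℤ) ^ 16) (kap_pos ht) hk1 (r_pos ht)
  set W : ℝ := 8 * (3 * (t : ℝ) ^ 16 + 1) ^ 3 with hW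
  have hWpos : 0 < W := by positivity
  have key := h22 (fun _ => (1 - del t) / 3) (fun _ => es t)
    (fun l => tau (DD (1 / (t : ℝ) ^ 56) (4 * t ^ 16) l))
    (fun l => W * vb t (2 * (t : ℤ) ^ 16) (3 * (t : ℤ) ^ 16) l + es t / del t)
    (2 * (t : ℤ) ^ 16) (3 * (t : ℤ) ^ 16)
    (fun _ => by linarith) (fun _ => by linarith)
    (fun l hl1 hl2 => by
      have r := tau_rec h10 h11 h12 h20 h21 ht (l := l) (by omega)
      have c := cc_small h20 h21 ht (l := l) (by omega) (by omega)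
      have n1 := (tau_facts h11 h21 (kap_pos ht) hk1 (r_pos ht) (by omega : 1 ≤ l - 1)).2.1
      have n2 := (tau_facts h11 h21 (kap_pos ht) hk1 (r_pos ht) (by omega : 1 ≤ l)).2.1
      have n3 := (tau_facts h11 h21 (kap_pos ht) hk1 (r_pos ht) (by omega : 1 ≤ l + 1)).2.1
      have k := mul_le_mul_of_nonneg_right c (by positivity :
        0 ≤ tau (DD (1 / (t : ℝ) ^ 56) (4 * t ^ 16) (l - 1)) + tau (DD (1 / (t : ℝ) ^ 56) (4 * t ^ 16) l) +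
          tau (DD (1 / (t : ℝ) ^ 56) (4 * t ^ 16) (l + 1)))
      have d1 := totD_le h24 ht (l := l - 1) (by omega)
      have d2 := totD_le h24 ht (l := l) (by omega)
      have d3 := totD_le h24 ht (l := l + 1) (by omega)
      have m1 := tot_nonneg (hD (l - 1) (by omega)).1
      have m2 := tot_nonneg (hD l (by omega)).1
      have m3 := tot_nonneg (hD (l + 1) (by omega)).1
      have hl0 : (0 : ℝ) ≤ l := by exact_mod_cast (by omega : (0 : ℤ) ≤ l)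
      have hl3 : (l : ℝ) + 1 ≤ 3 * (t : ℝ) ^ 16 + 1 := by
        have : (l : ℝ) ≤ 3 * (t : ℝ) ^ 16 := by exact_mod_cast hl2.le
        linarith
      have hp : ((l : ℝ) + 1) ^ 4 ≤ (3 * (t : ℝ) ^ 16 + 1) ^ 4 := pow_le_pow_left₀ (by linarith) hl3 4
      have he : 4 / 3 * ((l : ℝ) + 1) ^ 4 *
        (tot (DD (1 / (t : ℝ) ^ 56) (4 * t ^ 16) (l - 1)) + tot (DD (1 / (t : ℝ) ^ 56) (4 * t ^ 16) l) +
        tot (DD (1 / (t : ℝ) ^ 56) (4 * t ^ 16) (l + 1))) ≤ es t := by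
        calc _ ≤ 4 / 3 * (3 * (t : ℝ) ^ 16 + 1) ^ 4 * (12 * Real.exp (-(t : ℝ) ^ 2 / 4)) := by
              apply mul_le_mul _ _ (by positivity) (by positivity)
              · linarith
              · linarith
          _ = es t := by unfold es; ring
      show tau (DD (1 / (t : ℝ) ^ 56) (4 * t ^ 16) l) ≤ _
      linarith)
    (fun l _ _ => by
      have h := vb_super ht (2 * (t : ℤ) ^ 16) (3 * (t : ℤ) ^ 16) l
      have h' := mul_le_mul_of_nonneg_left h hWpos.le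
      have e : (1 - del t) * (es t / del t) + es t = es t / del t := by
        field_simp
        ring
      nlinarith)
    (by
      have h := (tau_facts h11 h21 (kap_pos ht) hk1 (r_pos ht) (by omega : 1 ≤ 2 * (t : ℤ) ^ 16)).2.2
      have v := vb_left ht (2 * (t : ℤ) ^ 16) (3 * (t : ℤ) ^ 16)
      have hv : W ≤ W * vb t (2 * (t : ℤ) ^ 16) (3 * (t : ℤ) ^ 16) (2 * (t : ℤ) ^ 16) :=
        le_mul_of_one_le_right hWpos.le v
      have hh : 8 * (((2 * (t : ℤ) ^ 16 : ℤ) : ℝ) + 1) ^ 3 ≤ W := by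
        rw [hW]
        push_cast
        have : (2 * (t : ℝ) ^ 16 + 1) ^ 3 ≤ (3 * (t : ℝ) ^ 16 + 1) ^ 3 :=
          pow_le_pow_left₀ (by linarith) (by linarith) 3
        linarith
      have : 0 < es t / del t := by positivity
      show tau (DD (1 / (t : ℝ) ^ 56) (4 * t ^ 16) (2 * (t : ℤ) ^ 16)) ≤ _
      linarith)
    (by
      have h := (tau_facts h11 h21 (kap_pos ht) hk1 (r_pos ht) (by omega : 1 ≤ 3 * (t : ℤ) ^ 16)).2.2
      have v := vb_right ht (2 * (t : ℤ) ^ 16) (3 * (t : ℤ) ^ 16)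
      have hv : W ≤ W * vb t (2 * (t : ℤ) ^ 16) (3 * (t : ℤ) ^ 16) (3 * (t : ℤ) ^ 16) :=
        le_mul_of_one_le_right hWpos.le v
      have hh : 8 * (((3 * (t : ℤ) ^ 16 : ℤ) : ℝ) + 1) ^ 3 ≤ W := by
        rw [hW]
        push_cast
        exact le_rfl
      have : 0 < es t / del t := by positivity
      show tau (DD (1 / (t : ℝ) ^ 56) (4 * t ^ 16) (3 * (t : ℤ) ^ 16)) ≤ _
      linarith)
    (2 * (t : ℤ) ^ 16 + (t : ℤ) ^ 16 / 2) (by omega) (by omega)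
  refine le_trans key ?_
  show W * vb t (2 * (t : ℤ) ^ 16) (3 * (t : ℤ) ^ 16) (2 * (t : ℤ) ^ 16 + (t : ℤ) ^ 16 / 2) +
    es t / del t ≤ _
  unfold vb
  have a1 := xx_zpow_le ht (2 * (t : ℤ) ^ 16 + (t : ℤ) ^ 16 / 2 - 2 * (t : ℤ) ^ 16) (t ^ 16 / 2)
    (by push_cast; omega)
  have a2 := xx_zpow_le ht (3 * (t : ℤ) ^ 16 - (2 * (t : ℤ) ^ 16 + (t : ℤ) ^ 16 / 2)) (t ^ 16 / 2)
    (by push_cast; omega)
  have hF : Real.exp (-((t ^ 16 / 2 : ℕ) : ℝ) * (1 / (4 * (t : ℝ) ^ 14))) ≤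
      Real.exp (-(t : ℝ) ^ 2 / 16) := by
    apply Real.exp_le_exp.2
    have hn : (t : ℝ) ^ 16 / 4 ≤ ((t ^ 16 / 2 : ℕ) : ℝ) := by
      have : t ^ 16 ≤ 2 * (t ^ 16 / 2) + 1 := by omega
      have h' : ((t ^ 16 : ℕ) : ℝ) ≤ 2 * ((t ^ 16 / 2 : ℕ) : ℝ) + 1 := by exact_mod_cast this
      push_cast at h'
      linarith
    have ht0 : (0 : ℝ) < t := by exact_mod_cast (by omega : 0 < t)
    have hc : 0 < 1 / (4 * (t : ℝ) ^ 14) := by positivity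
    have := mul_le_mul_of_nonneg_right hn hc.le
    have e : (t : ℝ) ^ 16 / 4 * (1 / (4 * (t : ℝ) ^ 14)) = (t : ℝ) ^ 2 / 16 := by
      field_simp
      norm_num
    rw [e] at this
    have e2 : -((t ^ 16 / 2 : ℕ) : ℝ) * (1 / (4 * (t : ℝ) ^ 14)) =
      -(((t ^ 16 / 2 : ℕ) : ℝ) * (1 / (4 * (t : ℝ) ^ 14))) := by ring
    rw [e2, neg_div]
    exact neg_le_neg this
  have hv : xx t ^ (2 * (t : ℤ) ^ 16 + (t : ℤ) ^ 16 / 2 - 2 * (t : ℤ) ^ 16) +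
      xx t ^ (3 * (t : ℤ) ^ 16 - (2 * (t : ℤ) ^ 16 + (t : ℤ) ^ 16 / 2)) ≤
      2 * Real.exp (-(t : ℝ) ^ 2 / 16) := by linarith
  have := mul_le_mul_of_nonneg_left hv hWpos.le
  rw [hW] at this ⊢
  linarith

/-- the final constant -/
def e3 (t : ℕ) : ℝ := 16 * (3 * (t : ℝ) ^ 16 + 1) ^ 3 * Real.exp (-(t : ℝ) ^ 2 / 16) + es t / del t +
  12 * Real.exp (-(t : ℝ) ^ 2 / 4) * (2 * (t : ℝ) ^ 16 + 2) ^ 3

theorem e3_bound (A : ℕ) : ∃ K : ℝ, ∀ t : ℕ, 2 ≤ t → e3 t ≤ K / (t : ℝ) ^ A := by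
  refine ⟨20600 * (16 ^ (92 + A) * (Nat.factorial (92 + A) : ℝ)), fun t ht => ?_⟩
  have ht0 : (0 : ℝ) < t := by exact_mod_cast (by omega : 0 < t)
  have ht2 : (2 : ℝ) ≤ t := by exact_mod_cast ht
  have hU : (65536 : ℝ) ≤ (t : ℝ) ^ 16 := by exact_mod_cast U_pos ht
  set F : ℝ := Real.exp (-(t : ℝ) ^ 2 / 16) with hF
  have hFpos : 0 < F := Real.exp_pos _
  have hEF : Real.exp (-(t : ℝ) ^ 2 / 4) ≤ F := by
    apply Real.exp_le_exp.2
    nlinarith [sq_nonneg (t : ℝ)]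
  have hEpos := Real.exp_pos (-(t : ℝ) ^ 2 / 4)
  have h3 : (3 * (t : ℝ) ^ 16 + 1) ^ 3 ≤ 64 * (t : ℝ) ^ 48 := by
    have : (3 * (t : ℝ) ^ 16 + 1) ^ 3 ≤ (4 * (t : ℝ) ^ 16) ^ 3 :=
      pow_le_pow_left₀ (by linarith) (by linarith) 3
    have e : (4 * (t : ℝ) ^ 16) ^ 3 = 64 * (t : ℝ) ^ 48 := by ring
    linarith
  have h4 : (3 * (t : ℝ) ^ 16 + 1) ^ 4 ≤ 256 * (t : ℝ) ^ 64 := by
    have : (3 * (t : ℝ) ^ 16 + 1) ^ 4 ≤ (4 * (t : ℝ) ^ 16) ^ 4 :=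
      pow_le_pow_left₀ (by linarith) (by linarith) 4
    have e : (4 * (t : ℝ) ^ 16) ^ 4 = 256 * (t : ℝ) ^ 64 := by ring
    linarith
  have h5 : (2 * (t : ℝ) ^ 16 + 2) ^ 3 ≤ 64 * (t : ℝ) ^ 48 := by
    have : (2 * (t : ℝ) ^ 16 + 2) ^ 3 ≤ (4 * (t : ℝ) ^ 16) ^ 3 :=
      pow_le_pow_left₀ (by linarith) (by linarith) 3
    have e : (4 * (t : ℝ) ^ 16) ^ 3 = 64 * (t : ℝ) ^ 48 := by ring
    linarith
  have h48 : (t : ℝ) ^ 48 ≤ (t : ℝ) ^ 92 := pow_le_pow_right₀ (by linarith) (by norm_num)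
  have hp92 : 0 < (t : ℝ) ^ 92 := by positivity
  have b1 : 16 * (3 * (t : ℝ) ^ 16 + 1) ^ 3 * F ≤ 1024 * ((t : ℝ) ^ 92 * F) := by
    have : 16 * (3 * (t : ℝ) ^ 16 + 1) ^ 3 ≤ 1024 * (t : ℝ) ^ 92 := by linarith
    calc 16 * (3 * (t : ℝ) ^ 16 + 1) ^ 3 * F ≤ 1024 * (t : ℝ) ^ 92 * F :=
          mul_le_mul_of_nonneg_right this hFpos.le
      _ = _ := by ring
  have b3 : 12 * Real.exp (-(t : ℝ) ^ 2 / 4) * (2 * (t : ℝ) ^ 16 + 2) ^ 3 ≤ 768 * ((t : ℝ) ^ 92 * F) := by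
    calc 12 * Real.exp (-(t : ℝ) ^ 2 / 4) * (2 * (t : ℝ) ^ 16 + 2) ^ 3
        ≤ 12 * F * (64 * (t : ℝ) ^ 92) := by
          apply mul_le_mul (by linarith) (by linarith) (by positivity) (by positivity)
      _ = _ := by ring
  have b2 : es t / del t ≤ 18800 * ((t : ℝ) ^ 92 * F) := by
    have hd : 1 / del t = 32 / 7 * (t : ℝ) ^ 28 := by
      unfold del
      field_simp
    have : es t / del t = es t * (1 / del t) := by ring
    rw [this, hd]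
    unfold es
    calc 16 * Real.exp (-(t : ℝ) ^ 2 / 4) * (3 * (t : ℝ) ^ 16 + 1) ^ 4 * (32 / 7 * (t : ℝ) ^ 28)
        ≤ 16 * F * (256 * (t : ℝ) ^ 64) * (32 / 7 * (t : ℝ) ^ 28) := by
          apply mul_le_mul_of_nonneg_right _ (by positivity)
          apply mul_le_mul (by linarith) h4 (by positivity) (by positivity)
      _ = (16 * 256 * 32 / 7) * ((t : ℝ) ^ 92 * F) := by ring
      _ ≤ 18800 * ((t : ℝ) ^ 92 * F) := by
          apply mul_le_mul_of_nonneg_right _ (by positivity)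
          norm_num
  have btot : e3 t ≤ 20600 * ((t : ℝ) ^ 92 * F) := by
    unfold e3
    have : 0 < (t : ℝ) ^ 92 * F := by positivity
    linarith
  rw [le_div_iff₀ (by positivity)]
  set n := 92 + A with hn
  have hexp : ((t : ℝ) ^ 2 / 16) ^ n / (n.factorial : ℝ) ≤ Real.exp ((t : ℝ) ^ 2 / 16) :=
    Real.pow_div_factorial_le_exp _ (by positivity) n
  have hfac : (0 : ℝ) < n.factorial := by exact_mod_cast n.factorial_pos
  have hFe : F * Real.exp ((t : ℝ) ^ 2 / 16) = 1 := by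
    rw [hF, ← Real.exp_add]
    rw [show -(t : ℝ) ^ 2 / 16 + (t : ℝ) ^ 2 / 16 = 0 by ring, Real.exp_zero]
  have hmain : (t : ℝ) ^ n * F ≤ 16 ^ n * n.factorial := by
    have h2n : (t : ℝ) ^ n ≤ (t : ℝ) ^ (2 * n) := pow_le_pow_right₀ (by linarith) (by omega)
    have e1 : (t : ℝ) ^ (2 * n) = ((t : ℝ) ^ 2 / 16) ^ n / n.factorial * (16 ^ n * n.factorial) := by
      rw [div_pow, pow_mul]
      field_simp
    calc (t : ℝ) ^ n * F ≤ (t : ℝ) ^ (2 * n) * F := mul_le_mul_of_nonneg_right h2n hFpos.le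
      _ = ((t : ℝ) ^ 2 / 16) ^ n / n.factorial * (16 ^ n * n.factorial) * F := by rw [e1]
      _ ≤ Real.exp ((t : ℝ) ^ 2 / 16) * (16 ^ n * n.factorial) * F := by
          apply mul_le_mul_of_nonneg_right _ hFpos.le
          exact mul_le_mul_of_nonneg_right hexp (by positivity)
      _ = (F * Real.exp ((t : ℝ) ^ 2 / 16)) * (16 ^ n * n.factorial) := by ring
      _ = 16 ^ n * n.factorial := by rw [hFe, one_mul]
  calc e3 t * (t : ℝ) ^ A ≤ 20600 * ((t : ℝ) ^ 92 * F) * (t : ℝ) ^ A :=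
        mul_le_mul_of_nonneg_right btot (by positivity)
    _ = 20600 * ((t : ℝ) ^ n * F) := by rw [hn, pow_add]; ring
    _ ≤ 20600 * (16 ^ n * n.factorial) := mul_le_mul_of_nonneg_left hmain (by norm_num)

theorem stepII (h10 : ST_C10) (h11 : ST_C11) (h12 : ST_C12) (h20 : ST_C20) (h21 : ST_C21)
    (h22 : ST_C22) (h23 : ST_C23) (h24 : ST_C24) (ht : 2 ≤ t) {l : ℤ}
    (hl : 2 * (t : ℤ) ^ 16 + (t : ℤ) ^ 16 / 2 ≤ l) :
    tau (DD (1 / (t : ℝ) ^ 56) (4 * t ^ 16) l) ≤ e3 t * ((l : ℝ) + 1) ^ 3 := by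
  have hk := kap_le ht
  have hk1 : 1 / (t : ℝ) ^ 56 < 1 := by linarith
  have hU := U_pos ht
  have hUR : (65536 : ℝ) ≤ (t : ℝ) ^ 16 := by exact_mod_cast hU
  have hd := del_pos ht
  have hE := Real.exp_pos (-(t : ℝ) ^ 2 / 4)
  have hF := Real.exp_pos (-(t : ℝ) ^ 2 / 16)
  have hes : 0 < es t := by unfold es; positivity
  have he3 : 0 < e3 t := by unfold e3; positivity
  have he3' : 12 * Real.exp (-(t : ℝ) ^ 2 / 4) * (2 * (t : ℝ) ^ 16 + 2) ^ 3 ≤ e3 t := by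
    unfold e3
    have : 0 < 16 * (3 * (t : ℝ) ^ 16 + 1) ^ 3 * Real.exp (-(t : ℝ) ^ 2 / 16) := by positivity
    have : 0 < es t / del t := by positivity
    linarith
  obtain ⟨-, hD, -⟩ := h21 (1 / (t : ℝ) ^ 56) (4 * (t : ℤ) ^ 16) (kap_pos ht) hk1 (r_pos ht)
  have key := h23 cl
    (fun l => 4 / 3 * ((l : ℝ) + 1) ^ 4 *
      (tot (DD (1 / (t : ℝ) ^ 56) (4 * t ^ 16) (l - 1)) + tot (DD (1 / (t : ℝ) ^ 56) (4 * t ^ 16) l) +
        tot (DD (1 / (t : ℝ) ^ 56) (4 * t ^ 16) (l + 1))))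
    (fun l => tau (DD (1 / (t : ℝ) ^ 56) (4 * t ^ 16) l))
    (fun l => e3 t * w3 l) w4 (2 * (t : ℤ) ^ 16 + (t : ℤ) ^ 16 / 2) cl_nonneg w4_pos
    (fun l hl => w4_super (by omega))
    (fun l hl => by
      have r := tau_rec h10 h11 h12 h20 h21 ht (l := l) (by omega)
      have c := cc_large h10 h20 h21 ht (l := l) (by omega)
      have n1 := (tau_facts h11 h21 (kap_pos ht) hk1 (r_pos ht) (by omega : 1 ≤ l - 1)).2.1
      have n2 := (tau_facts h11 h21 (kap_pos ht) hk1 (r_pos ht) (by omega : 1 ≤ l)).2.1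
      have n3 := (tau_facts h11 h21 (kap_pos ht) hk1 (r_pos ht) (by omega : 1 ≤ l + 1)).2.1
      have k := mul_le_mul_of_nonneg_right c (by positivity :
        0 ≤ tau (DD (1 / (t : ℝ) ^ 56) (4 * t ^ 16) (l - 1)) + tau (DD (1 / (t : ℝ) ^ 56) (4 * t ^ 16) l) +
          tau (DD (1 / (t : ℝ) ^ 56) (4 * t ^ 16) (l + 1)))
      exact r.trans (by linarith))
    (fun l hl => by
      have hlR : 2 * (t : ℝ) ^ 16 + 1 ≤ l := by exact_mod_cast (by omega : 2 * (t : ℤ) ^ 16 + 1 ≤ l)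
      have hl0 : (0 : ℝ) < l - 1 := by linarith
      have w := w3_eq (l := l) (by omega)
      have d1 := h24 t (l - 1) ht (by omega)
      have d2 := h24 t l ht (by omega)
      have d3 := h24 t (l + 1) ht (by omega)
      push_cast at d1 d3
      set Q : ℝ := 3 * Real.exp (-(t : ℝ) ^ 2 / 4) * (2 * (t : ℝ) ^ 16 + 2) ^ 3 with hQ
      have hQpos : 0 < Q := by positivity
      have c2 : Q / (l : ℝ) ^ 3 ≤ Q / ((l : ℝ) - 1) ^ 3 :=
        div_le_div_of_nonneg_left hQpos.le (by positivity) (pow_le_pow_left₀ hl0.le (by linarith) 3)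
      have c3 : Q / ((l : ℝ) + 1) ^ 3 ≤ Q / ((l : ℝ) - 1) ^ 3 :=
        div_le_div_of_nonneg_left hQpos.le (by positivity) (pow_le_pow_left₀ hl0.le (by linarith) 3)
      have hs : tot (DD (1 / (t : ℝ) ^ 56) (4 * t ^ 16) (l - 1)) +
          tot (DD (1 / (t : ℝ) ^ 56) (4 * t ^ 16) l) +
          tot (DD (1 / (t : ℝ) ^ 56) (4 * t ^ 16) (l + 1)) ≤ 3 * (Q / ((l : ℝ) - 1) ^ 3) := by
        linarith
      have hratio : ((l : ℝ) + 1) ^ 3 ≤ 2 * ((l : ℝ) - 1) ^ 3 := by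
        have : (l : ℝ) + 1 ≤ 9 / 8 * (l - 1) := by linarith
        have h3 : ((l : ℝ) + 1) ^ 3 ≤ (9 / 8 * ((l : ℝ) - 1)) ^ 3 :=
          pow_le_pow_left₀ (by linarith) this 3
        have : 0 < ((l : ℝ) - 1) ^ 3 := by positivity
        rw [mul_pow] at h3
        nlinarith
      have he : 4 / 3 * ((l : ℝ) + 1) ^ 4 * (tot (DD (1 / (t : ℝ) ^ 56) (4 * t ^ 16) (l - 1)) +
          tot (DD (1 / (t : ℝ) ^ 56) (4 * t ^ 16) l) +
          tot (DD (1 / (t : ℝ) ^ 56) (4 * t ^ 16) (l + 1))) ≤ e3 t * (2 * (l + 1)) := by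
        calc _ ≤ 4 / 3 * ((l : ℝ) + 1) ^ 4 * (3 * (Q / ((l : ℝ) - 1) ^ 3)) :=
              mul_le_mul_of_nonneg_left hs (by positivity)
          _ = 4 * Q * (((l : ℝ) + 1) ^ 3 / ((l : ℝ) - 1) ^ 3) * (l + 1) := by
              field_simp
          _ ≤ 4 * Q * 2 * (l + 1) := by
              have : ((l : ℝ) + 1) ^ 3 / ((l : ℝ) - 1) ^ 3 ≤ 2 := by
                rw [div_le_iff₀ (by positivity)]
                exact hratio
              have hl1 : (0 : ℝ) ≤ l + 1 := by linarith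
              exact mul_le_mul_of_nonneg_right (mul_le_mul_of_nonneg_left this (by positivity)) hl1
          _ = (12 * Real.exp (-(t : ℝ) ^ 2 / 4) * (2 * (t : ℝ) ^ 16 + 2) ^ 3) * (2 * (l + 1)) := by
              rw [hQ]; ring
          _ ≤ _ := mul_le_mul_of_nonneg_right he3' (by linarith)
      have ev : cl l * (e3 t * w3 (l - 1) + e3 t * w3 l + e3 t * w3 (l + 1)) =
          e3 t * (cl l * (w3 (l - 1) + w3 l + w3 (l + 1))) := by ring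
      have h8 : 0 ≤ e3 t * (8 / ((l : ℝ) + 1)) := by
        have : (0 : ℝ) < l + 1 := by linarith
        positivity
      rw [ev, w]
      linarith)
    (fun ε hε => by
      refine ⟨max 1 ⌈8 / ε⌉, fun l hl => ?_⟩
      have l1 : (1 : ℤ) ≤ l := (le_max_left _ _).trans hl
      have l2 : 8 / ε ≤ l := by
        have := (Int.le_ceil (8 / ε))
        have h2 : (⌈8 / ε⌉ : ℝ) ≤ l := by exact_mod_cast (le_max_right _ _).trans hl
        linarith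
      have lR : (1 : ℝ) ≤ l := by exact_mod_cast l1
      have d := (tau_facts h11 h21 (kap_pos ht) hk1 (r_pos ht) l1).2.2
      have hv : 0 ≤ e3 t * w3 l := by
        have := w3_pos l
        positivity
      have h8 : 8 ≤ ε * l := by
        rw [div_le_iff₀ hε] at l2
        linarith
      have h9 : 8 ≤ ε * (l + 1) := by linarith
      have hw : w4 l = ((l : ℝ) + 1) ^ 4 := by
        unfold w4
        rw [if_pos (by omega)]
      have : 8 * ((l : ℝ) + 1) ^ 3 ≤ ε * w4 l := by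
        rw [hw]
        calc 8 * ((l : ℝ) + 1) ^ 3 ≤ ε * (l + 1) * ((l : ℝ) + 1) ^ 3 :=
              mul_le_mul_of_nonneg_right h9 (by positivity)
          _ = _ := by ring
      linarith)
    (by
      have s := stepI h10 h11 h12 h20 h21 h22 h24 ht
      have hw : 1 ≤ w3 (2 * (t : ℤ) ^ 16 + (t : ℤ) ^ 16 / 2) := by
        unfold w3
        rw [if_pos (by omega)]
        apply one_le_pow₀
        have : (0 : ℝ) ≤ ((2 * (t : ℤ) ^ 16 + (t : ℤ) ^ 16 / 2 : ℤ) : ℝ) := by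
          exact_mod_cast (by omega : (0 : ℤ) ≤ 2 * (t : ℤ) ^ 16 + (t : ℤ) ^ 16 / 2)
        linarith
      have h1 : e3 t ≤ e3 t * w3 (2 * (t : ℤ) ^ 16 + (t : ℤ) ^ 16 / 2) :=
        le_mul_of_one_le_right he3.le hw
      have h2 : 16 * (3 * (t : ℝ) ^ 16 + 1) ^ 3 * Real.exp (-(t : ℝ) ^ 2 / 16) + es t / del t ≤ e3 t := by
        unfold e3
        have : 0 < 12 * Real.exp (-(t : ℝ) ^ 2 / 4) * (2 * (t : ℝ) ^ 16 + 2) ^ 3 := by positivity
        linarith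
      show tau (DD (1 / (t : ℝ) ^ 56) (4 * t ^ 16) (2 * (t : ℤ) ^ 16 + (t : ℤ) ^ 16 / 2)) ≤
        e3 t * w3 (2 * (t : ℤ) ^ 16 + (t : ℤ) ^ 16 / 2)
      linarith)
    l hl
  refine le_trans key ?_
  show e3 t * w3 l ≤ _
  unfold w3
  rw [if_pos (by omega)]

end

theorem st_C25 (h10 : ST_C10) (h11 : ST_C11) (h12 : ST_C12) (h20 : ST_C20) (h21 : ST_C21)
    (h22 : ST_C22) (h23 : ST_C23) (h24 : ST_C24) : ST_C25 := by
  intro A
  obtain ⟨K, hK⟩ := e3_bound A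
  refine ⟨K, fun t l ht hl => ?_⟩
  have hk := kap_le ht
  have hk1 : 1 / (t : ℝ) ^ 56 < 1 := by linarith
  have hU := U_pos ht
  have f := tau_facts h11 h21 (kap_pos ht) hk1 (r_pos ht) (by omega : 1 ≤ l)
  refine h11.2.2.2.2.1 _ _ _ f.1 ?_
  refine (stepII h10 h11 h12 h20 h21 h22 h23 h24 ht (by omega)).trans ?_
  have hl0 : (0 : ℝ) ≤ l := by exact_mod_cast (by omega : (0 : ℤ) ≤ l)
  exact mul_le_mul_of_nonneg_right (hK t ht) (by positivity)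

end

end QR65

theorem QR.st_C25 (h10 : QR.ST_C10) (h11 : QR.ST_C11) (h12 : QR.ST_C12) (h20 : QR.ST_C20)
    (h21 : QR.ST_C21) (h22 : QR.ST_C22) (h23 : QR.ST_C23) (h24 : QR.ST_C24) : QR.ST_C25 :=
  QR65.st_C25 h10 h11 h12 h20 h21 h22 h23 h24
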