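import Pool.Agent.Helper65.QR.A13

/-!
# Transport of a map along a bijection of the darts
-/

namespace QR65

noncomputable section

open QR Filter Topology

variable {D E : Type}

theorem permCongr_zpow (e : D ≃ E) (σ : Equiv.Perm D) (k : ℤ) :
    (e.permCongr σ) ^ k = e.permCongr (σ ^ k) := by
  have := map_zpow e.permCongrHom σ k
  exact this.symm

theorem same_permCongr (e : D ≃ E) (σ : Equiv.Perm D) (x y : E) :
    (e.permCongr σ).SameCycle x y ↔ σ.SameCycle (e.symm x) (e.symm y) := by
  constructor
  · rintro ⟨k, hk⟩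
    refine ⟨k, ?_⟩
    rw [permCongr_zpow, Equiv.permCongr_apply] at hk
    rw [← hk, Equiv.symm_apply_apply]
  · rintro ⟨k, hk⟩
    refine ⟨k, ?_⟩
    rw [permCongr_zpow, Equiv.permCongr_apply, hk, Equiv.apply_symm_apply]

/-- the transported map -/
def mv (e : D ≃ E) (m : RMap D) : RMap E where
  rot := e.permCongr m.rot
  opp := e.permCongr m.opp
  opp_opp d := by
    simp only [Equiv.permCongr_apply, Equiv.symm_apply_apply, m.opp_opp, Equiv.apply_symm_apply]
  opp_ne d h := by
    rw [Equiv.permCongr_apply] at h
    apply m.opp_ne (e.symm d)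
    rw [← e.symm_apply_apply (m.opp (e.symm d)), h]

theorem mv_face (e : D ≃ E) (m : RMap D) : (mv e m).face = e.permCongr m.face := by
  ext d
  simp only [mv, RMap.face, Equiv.trans_apply, Equiv.permCongr_apply, Equiv.symm_apply_apply]

theorem mv_face_same (e : D ≃ E) (m : RMap D) (x y : E) :
    (mv e m).face.SameCycle x y ↔ m.face.SameCycle (e.symm x) (e.symm y) := by
  rw [mv_face]
  exact same_permCongr e _ x y

theorem mv_rot_same (e : D ≃ E) (m : RMap D) (x y : E) :
    (mv e m).rot.SameCycle x y ↔ m.rot.SameCycle (e.symm x) (e.symm y) :=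
  same_permCongr e _ x y

theorem mv_tail (e : D ≃ E) (m : RMap D) (x y : E) :
    (mv e m).tail x = (mv e m).tail y ↔ m.tail (e.symm x) = m.tail (e.symm y) := by
  unfold RMap.tail
  rw [Quotient.eq, Quotient.eq]
  exact mv_rot_same e m x y

theorem mv_card_vert (e : D ≃ E) (m : RMap D) : Nat.card (mv e m).Vert = Nat.card m.Vert := by
  apply Nat.card_congr
  refine Quotient.congr e.symm (fun a b => ?_)
  exact mv_rot_same e m a b

theorem mv_card_face (e : D ≃ E) (m : RMap D) : Nat.card (mv e m).Face = Nat.card m.Face := by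
  apply Nat.card_congr
  refine Quotient.congr e.symm (fun a b => ?_)
  exact mv_face_same e m a b

theorem mv_conn (e : D ≃ E) {m : RMap D} (h : m.Conn) : (mv e m).Conn := by
  intro x y
  have key : ∀ a b : D, Relation.ReflTransGen (fun a b => b = m.rot a ∨ b = m.opp a) a b →
      Relation.ReflTransGen (fun a b => b = (mv e m).rot a ∨ b = (mv e m).opp a) (e a) (e b) := by
    intro a b hab
    induction hab with
    | refl => exact Relation.ReflTransGen.refl
    | tail _ hs ih =>
      refine ih.tail ?_
      rcases hs with hs | hs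
      · left
        show _ = e.permCongr m.rot _
        rw [Equiv.permCongr_apply, Equiv.symm_apply_apply, hs]
      · right
        show _ = e.permCongr m.opp _
        rw [Equiv.permCongr_apply, Equiv.symm_apply_apply, hs]
  have := key _ _ (h (e.symm x) (e.symm y))
  rwa [Equiv.apply_symm_apply, Equiv.apply_symm_apply] at this

theorem mv_fdeg (e : D ≃ E) (m : RMap D) (x : E) : (mv e m).fdeg x = m.fdeg (e.symm x) := by
  unfold RMap.fdeg
  apply Nat.card_congr
  refine e.symm.subtypeEquiv (fun y => ?_)
  exact mv_face_same e m x y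

theorem mv_isQuad (e : D ≃ E) {m : RMap D} {o : D} {n p : ℕ} (h : m.IsQuad o n p) :
    (mv e m).IsQuad (e o) n p where
  planar := by
    refine ⟨h.planar.1.map e, mv_conn e h.planar.2.1, ?_⟩
    rw [mv_card_vert, mv_card_face, h.planar.2.2, Nat.card_congr e]
  outer := by
    rw [mv_fdeg, Equiv.symm_apply_apply]
    exact h.outer
  inner d hd := by
    rw [mv_fdeg]
    apply h.inner
    intro hs
    apply hd
    rw [mv_face_same, Equiv.symm_apply_apply]
    exact hs
  card := by
    rw [← Nat.card_congr e]
    exact h.card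

theorem mv_simple (e : D ≃ E) {m : RMap D} {o : D} (h : m.Simple o) : (mv e m).Simple (e o) := by
  intro d d' h1 h2 h3
  rw [mv_face_same, Equiv.symm_apply_apply] at h1 h2
  rw [mv_tail] at h3
  exact e.symm.injective (h _ _ h1 h2 h3)

end

end QR65
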